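import Pool.Agent.Helper51.REC.Goals2

/-!
# Project REC, part 3: the two-sided law
-/

set_option autoImplicit false

namespace Pool.Agent.Helper51.REC

open NumberField Module IsDedekindDomain Pool.Agent.Helper51.RP Pool.Agent.Helper42.PP

open Classical in
/-- `∑_{W ∉ S} c_W ord_W(x) kap_W(β)`. -/
noncomputable def brw (p : ℕ) {F : Type} [Field F] [NumberField F] (ε : F)
    (S : Set (HeightOneSpectrum (𝓞 F))) (c : HeightOneSpectrum (𝓞 F) → ZMod p) (β x : Fˣ) : ZMod p :=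
  ∑ᶠ W : HeightOneSpectrum (𝓞 F), if W ∈ S then 0 else
    c W * (((ordv W (x : F) : ℤ) : ZMod p) * kap p ε W β)

/-- At every prime outside `S` the valuation of `x` or that of `β` is a multiple of `p`. -/
def Sep (p : ℕ) {F : Type} [Field F] [NumberField F] (S : Set (HeightOneSpectrum (𝓞 F)))
    (x β : Fˣ) : Prop :=
  ∀ W ∉ S, (p : ℤ) ∣ ordv W (x : F) ∨ (p : ℤ) ∣ ordv W (β : F)

/-- **T_LIN.** There are constants `c_v`, `v ∉ S`, with `[x, β] = ∑_{v ∉ S} c_v ord_v(x) kap_v(β)` for all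
`β ∈ LocS` and all `x` separated from `β`.

PROOF (from `K_BAS`, `K_APP`, `K_LOC`, `K_BRK`, `R_ONE`). Let `v ∉ S`, `S_v = S ∪ {v}` (`Sit p F ε S_v`), `x_v` with
`DivIs S x_v v`, an `S_v`-unit, and `B_v` the group of the `β ∈ LocS p S` with `p ∣ ord_v(β)`. For `β ∈ B_v` let
`Φ(β) = [x_v, β]_S = [x_v, β]_{S_v}` (the term of `v` is `0`). If `β ∈ B_v`, `kap_v(β) = 0` then `LocPow p v β`,
so `β ∈ LocS p S_v` (`K_LOC`) and `Φ(β) = 0` (`R_ONE` for `S_v`). By `K_BAS`, `K_APP` there is `β₁ ∈ B_v` with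
`kap_v(β₁) = 1` (`β₁ ≡ 1` at `S`, modulo `p³` at the primes above `p`, `β₁ ≡` a unit with symbol `1` at `v`). Put
`c_v = Φ(β₁)`. For `β ∈ B_v`, `a = kap_v(β)` (as a natural number), `β β₁^(-a) ∈ B_v` has symbol `0` at `v`, so
`Φ(β) = c_v kap_v(β)`. General `x`: `x = u ∏_v x_v^(ord_v x)` over the finitely many `v ∉ S` with `ord_v(x) ≠ 0`,
`u ∈ S.unit F`. Write this as `x = u e^p ∏_{v ∈ T} x_v^(ord_v x)`, `T = {v ∉ S : p ∤ ord_v(x)}`,
`e = ∏_{v ∉ T} x_v^(ord_v(x)/p)`. At the `W ∉ S` with `p ∤ ord_W(β)` all of `u, e^p, x_v` (`v ∈ T`, so `v ≠ W`) have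
valuations which are multiples of `p`; so by `K_BRK`
`[x, β] = [u, β] + [e^p, β] + ∑_{v ∈ T} ord_v(x) [x_v, β]`; `[u, β] = 0` by `R_ONE`, `[e^p, β] = 0` (`K_BAS`), and
`β ∈ B_v` for `v ∈ T`. So `[x, β] = ∑_{v ∈ T} ord_v(x) c_v kap_v(β)`. -/
def T_LIN : Prop :=
  ∀ (p : ℕ) [Fact p.Prime] (F : Type) [Field F] [NumberField F] (ε : F)
    (S : Set (HeightOneSpectrum (𝓞 F))), Sit p F ε S →
  ∃ c : HeightOneSpectrum (𝓞 F) → ZMod p, ∀ x β : Fˣ, LocS p S β → Sep p S x β →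
    brk p ε S x β = brw p ε S c β x

/-- **T_CON.** The constants `c_v` of `T_LIN` are all equal to one `c₀` with `c₀² = 1`.

PROOF (from `K_BAS`, `K_APP`, `K_LOC`, `K_BRK`, `H_A`, `L_LIN`). Let `x ∈ LocS p S`,
`T(x) = {v ∉ S : p ∤ ord_v(x)} = {v_1, ..., v_a}`, `o_i = ord_{v_i}(x) ≠ 0 mod p`, `c_i = c_{v_i}`, and
`S₁ = S ∪ T(x)`. CLAIM: for every `b ∈ (ZMod p)^a`, `b ≠ 0`, there is `V ∉ S₁` with
`∑ o_i b_i = c_V ∑ c_i o_i b_i`. *Proof.* By `K_APP`, `K_BAS` choose `β₀ ∈ LocS p S`, a unit at the `v_i` with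
`kap_{v_i}(β₀) = b_i`. (α) No `β₀ u`, `u ∈ S₁.unit F`, is in `LocS p S₁`: suppose `β₀ u = γ ∈ LocS p S₁`. Then
`p ∣ ord_{v_i}(u)`; by `Sit.prin` choose `e ∈ Fˣ` with `p ord_{v_i}(e) = ord_{v_i}(u)` and `ord_W(e) = 0` for the
other `W ∉ S`; `u' = u e^(-p) ∈ S.unit F`, `u' = γ e^(-p) β₀^(-1) ∈ LocS p S`, so `u'` is a `p`-th power
(`H_A` with `β = u'`, `T = ∅`); so `b_i = kap_{v_i}(β₀) = kap_{v_i}(γ) - kap_{v_i}(u' e^p) = 0` for all `i`, a
contradiction. (β) So `L_LIN` for `S₁` gives `γ ∈ LocS p S₁`, `V ∉ S₁` with `Only p S₁ (β₀ γ) V`. Let `β = β₀ γ`: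
`β ∈ LocS p S`, `p ∣ ord_{v_i}(β)`, `kap_{v_i}(β) = b_i`, `V` is the only prime outside `S` with
`n = ord_V(β) ≠ 0 mod p`. `T_LIN` for `(x, β)`: `n kap_V(x) = ∑ c_i o_i b_i`. `T_LIN` for `(β, x)` (`x ∈ LocS`):
`∑ o_i kap_{v_i}(β) = [β, x] = c_V n kap_V(x)`. Together: the claim.
So `∑ c_i o_i b_i = 0` implies `∑ o_i b_i = 0`, for all `b ∈ (ZMod p)^a`: the second linear form is a multiple of
the first, `o_i = λ c_i o_i` for all `i`, `λ c_i = 1`: all the `c_i` are equal and nonzero. For any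
`v, v' ∉ S` there is `x ∈ LocS p S` with `ord_v(x) = ord_{v'}(x) = 1` (`K_APP`), so `c_v = c_{v'}`. So all the
`c_v`, `v ∉ S`, are equal to `c₀ ≠ 0`. Take any `v ∉ S`, such an `x` and `b` with `∑ o_i b_i ≠ 0`: the claim gives
`1 = c₀ c₀`. (There are primes `v ∉ S`, infinitely many; if there were none take `c₀ = 1`.) -/
def T_CON : Prop :=
  ∀ (p : ℕ) [Fact p.Prime] (F : Type) [Field F] [NumberField F] (ε : F)
    (S : Set (HeightOneSpectrum (𝓞 F))), Sit p F ε S →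
  ∀ c : HeightOneSpectrum (𝓞 F) → ZMod p,
    (∀ x β : Fˣ, LocS p S β → Sep p S x β → brk p ε S x β = brw p ε S c β x) →
  ∃ c₀ : ZMod p, c₀ * c₀ = 1 ∧ ∀ v, v ∉ S → c v = c₀

/-- **T_ONE.** If `[x, β] = c₀ [β, x]` for all `β ∈ LocS` and all `x` separated from `β`, and `c₀² = 1`, then
`c₀ = 1`.

PROOF (from `K_BAS`, `K_APP`, `K_LOC`, `K_BRK`). For `p = 2` clear. Let `p` be odd. `𝔪 = p³ ∏_{v ∈ S} v`. *Choice of
the elements.* Choose a prime `v₀ ∉ S`, and (Chinese remainder theorem) `x' ∈ 𝓞_F`, `x' ≡ 1 mod 𝔪`,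
`ord_{v₀}(x') = 1`; `μ ∈ 𝓞_F`, `μ ≠ 0`, `μ ∈ 𝔪`, prime to `v₀`; `x = μ^p x'`. Choose `s ∈ 𝓞_F`, `s ≡ 1 mod 𝔪`,
`s ≡` a unit with nonzero symbol modulo `v₀` (`K_BAS`), `s ≡ 1` modulo the other primes `W ∉ S` with
`ord_W(x) > 0`. Let `y = x + s`. Then `x, s, y ∈ LocS p S` (`μ^(-p) x ≡ 1`, `s ≡ 1`, `y ≡ 1 mod 𝔪`), they are in `𝓞_F`,
nonzero, and outside `S` no prime divides two of them (a prime which divides two of `x, s, y` divides `x` and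
`s`). *Congruences.* If `W ∉ S`, `W ∣ y`: `x ≡ -s mod W`, units at `W`, so `kap_W(x) = kap_W(-s) = kap_W(s)`
(`kap_W(-1) = 0` since `-1 = (-1)^p`). So `[x, y] = [s, y]`. If `W ∣ s`: `y ≡ x`, so `[y, s] = [x, s]`. If `W ∣ x`:
`y ≡ s`, so `[y, x] = [s, x]`. (For two elements of `𝓞_F` prime to each other outside `S`, `[a, b]` involves
only the `W ∣ b`, where `a` is a unit.) By the hypothesis (all are in `LocS` and pairwise separated):
`[x, y] = c₀ [y, x] = c₀ [s, x]` and `[s, y] = c₀ [y, s] = c₀ [x, s] = c₀² [s, x] = [s, x]`. So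
`(c₀ - 1) [s, x] = 0`, and `[s, x] = ord_{v₀}(x) kap_{v₀}(s) + ∑_{W ≠ v₀} ord_W(x) kap_W(s) = kap_{v₀}(s) ≠ 0`, as
`ord_{v₀}(x) = 1` and `kap_W(s) = kap_W(1) = 0` for the other `W ∣ x`. So `c₀ = 1`. -/
def T_ONE : Prop :=
  ∀ (p : ℕ) [Fact p.Prime] (F : Type) [Field F] [NumberField F] (ε : F)
    (S : Set (HeightOneSpectrum (𝓞 F))), Sit p F ε S →
  ∀ c₀ : ZMod p, c₀ * c₀ = 1 →
    (∀ x β : Fˣ, LocS p S β → Sep p S x β → brk p ε S x β = c₀ * brk p ε S β x) → c₀ = 1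

/-- **R_TWO** (the two-sided law): `[x, β] = [β, x]` for `β ∈ LocS` and `x` separated from `β`.

PROOF. `T_LIN`, `T_CON`, `T_ONE` (`brw p ε S c β x = c₀ [β, x]` if `c_v = c₀` for `v ∉ S`:
`mul_finsum`, finite support). -/
def R_TWO : Prop :=
  ∀ (p : ℕ) [Fact p.Prime] (F : Type) [Field F] [NumberField F] (ε : F)
    (S : Set (HeightOneSpectrum (𝓞 F))), Sit p F ε S →
  ∀ x β : Fˣ, LocS p S β → Sep p S x β → brk p ε S x β = brk p ε S β x

/-- **R_DUA** (duality). Every homomorphism `f : Fˣ → ZMod p` which is trivial on the `S`-units and on `LocS` is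
`[β, ·]` for an `S`-unit `β`; and `[β, ·] = 0` only if `β` is a `p`-th power.

PROOF (from `K_BAS`, `K_LOC`, `K_BRK`, `H_A`, `L_IDX`, `L_UNI`, `L_HIT`, `R_ONE`). Let `U = S.unit F`, `Λ` the group
of `LocS`, `R = Fˣ/(U Λ)`, `d = |S| + [F : ℚ]/2`. As in `L_LIN` (a), `|R| ≤ p^d` (`L_IDX`, `L_UNI`, `H_A`); `R` is a
vector space over `ZMod p`, so there are at most `p^d` homomorphisms `f` as in the statement. For `β ∈ U`,
`[β, ·]` is such a homomorphism: `K_BRK`, `R_ONE`, and `[β, u] = 0` for `u ∈ U` (valuations `0`). It is additive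
in `β ∈ U` (`K_BRK`). If `β` is not a `p`-th power (equivalently `β ∉ U^p`), there is a homomorphism
`φ : U → ZMod p` with `φ(β) ≠ 0` (`U/U^p` is a vector space), and `L_HIT` gives `W ∉ S` with
`kap_W(β) = n φ(β) ≠ 0`; for an element `α` with divisor `W` outside `S` (`Sit.prin`), `[β, α] = kap_W(β) ≠ 0`. So
the `p^d` elements of `L_UNI` give `p^d` different homomorphisms `[β, ·]`: they are all. -/
def R_DUA : Prop :=
  ∀ (p : ℕ) [Fact p.Prime] (F : Type) [Field F] [NumberField F] (ε : F)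
    (S : Set (HeightOneSpectrum (𝓞 F))), Sit p F ε S →
    (∀ β ∈ S.unit F, (∀ α, brk p ε S β α = 0) → Pw p β) ∧
    ∀ f : Fˣ → ZMod p, (∀ a b, f (a * b) = f a + f b) → (∀ u ∈ S.unit F, f u = 0) →
      (∀ β, LocS p S β → f β = 0) → ∃ β ∈ S.unit F, ∀ α, f α = brk p ε S β α

end Pool.Agent.Helper51.REC
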