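import Pool.Agent.Helper51.REC.Goals1
import Pool.Agent.Helper38.RS.Goals3

/-!
# Project REC, part 2: lines, the elements `ζ` and `c`, the homomorphism `ρ`, the one-sided law
-/

set_option autoImplicit false

namespace Pool.Agent.Helper51.REC

open NumberField Module IsDedekindDomain Pool.Agent.Helper51.RP Pool.Agent.Helper42.PP

/-- **L_IDP** (local `p`-th powers at a prime above `p`). Let `v ∣ p`, `e = ord_v(p)`, `N v = p^f`. Elements prime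
to `v`, pairwise incongruent modulo `v^(3e)` up to `p`-th powers: at most `p^(1 + e f)`.

PROOF. Let `R = 𝓞_F/v^(3e)`; the number is at most `|Rˣ/(Rˣ)^p|`, which for the finite abelian group `Rˣ` is
equal to the number of the `x ∈ R` with `x^p = 1` (kernel and cokernel of `x ↦ x^p`). Let `x ∈ 𝓞_F`,
`x^p ≡ 1 mod v^(3e)`: `∑_{i<p} ord_v(x - ε^i) ≥ 3e` (orders of algebraic integers, `+∞` for `0`).
`ord_v(ε^i - ε^j) = e/(p-1)` for `i ≠ j` (`∏_{0<i<p} (1 - ε^i) = p`, the `1 - ε^i` are associated). Let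
`a = ord_v(x - ε^i)` be the largest. If `a ≤ e/(p-1)` the sum is `≤ p e/(p-1) ≤ 2e < 3e`, a contradiction. So
`a > e/(p-1)`, the others are `e/(p-1)`, the sum is `a + e`, `a ≥ 2e`: `x ≡ ε^i mod v^(2e)`. Thus there are at
most `p |v^(2e)/v^(3e)| = p (N v)^e = p^(1 + e f)` classes of `x`. -/
def L_IDP : Prop :=
  ∀ (p : ℕ) [Fact p.Prime] (F : Type) [Field F] [NumberField F] (ε : F), IsPrimitiveRoot ε p →
  ∀ (v : HeightOneSpectrum (𝓞 F)) (e f : ℕ), v.valuation F (p : F) < 1 → ordv v (p : F) = e →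
    Ideal.absNorm v.asIdeal = p ^ f →
  ∀ A : Finset (𝓞 F), (∀ x ∈ A, x ∉ v.asIdeal) →
    (∀ x ∈ A, ∀ y ∈ A, x ≠ y → ¬ ∃ t : 𝓞 F, x - y * t ^ p ∈ v.asIdeal ^ (3 * e)) →
    A.card ≤ p ^ (1 + e * f)

/-- **L_IDX** (the index of `LocS`). Elements pairwise incongruent modulo `LocS`: at most
`p^(2|S| + [F : ℚ])`.

PROOF (from `K_APP`, `L_IDP`). For `v ∈ S` let `e_v = ord_v(p)`, `N_v = 3 e_v` if `v ∣ p` and `N_v = 1` otherwise,
`R_v = 𝓞_F/v^(N_v)`, `G_v = R_vˣ/(R_vˣ)^p`. `|G_v| ≤ p` if `v ∤ p` (`R_vˣ` is the multiplicative group of a finite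
field, cyclic), and `|G_v| ≤ p^(1 + e_v f_v)` if `v ∣ p`, `N v = p^(f_v)` (`L_IDP`).
For `v ∈ S` let `π_v ∈ Fˣ`, `ord_v(π_v) = 1`. Map `x ∈ Fˣ` to
`(ord_v(x) mod p, class of x π_v^(-ord_v(x)) in G_v)_{v ∈ S}` (elements of `F` which are units at `v` have a
class in `R_v`: they are `≡` elements of `𝓞_F` modulo `v^(N_v)`). If `x, x'` have the same image, `z = x/x'`:
`ord_v(z) = p m_v` and there is a unit `t_v ∈ F` at `v` with `z π_v^(-p m_v) ≡ t_v^p mod v^(N_v)`. By `K_APP`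
choose `y ∈ Fˣ` with `y ≡ π_v^(-m_v) t_v^(-1)` (quotient `≡ 1` modulo `v` and modulo `p³`) for all `v ∈ S`: then
`z y^p ≡ 1 mod v^(N_v)`, so `LocS p S z`. So the number of classes is at most
`∏_v p |G_v| ≤ p^(2|S| + ∑_{v ∣ p} e_v f_v) = p^(2|S| + [F : ℚ])` (`Ideal.sum_ramification_inertia`; all
`v ∣ p` are in `S`). -/
def L_IDX : Prop :=
  ∀ (p : ℕ) [Fact p.Prime] (F : Type) [Field F] [NumberField F] (ε : F)
    (S : Set (HeightOneSpectrum (𝓞 F))), Sit p F ε S →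
  ∀ A : Finset Fˣ, (∀ x ∈ A, ∀ y ∈ A, x ≠ y → ¬ LocS p S (x / y)) →
    A.card ≤ p ^ (2 * S.ncard + finrank ℚ F)

/-- **L_UNI** (`S`-units modulo `p`-th powers).

PROOF (from `H_RNK`). `U = S.unit F` is a finitely generated abelian group of rank
`r = [F : ℚ]/2 - 1 + |S|` (`F` totally complex) and contains `ε` of order `p`. For such a group
`|U/U^p| = p^r |U[p]| ≥ p^(r+1)`. Two elements of `U` whose quotient is the `p`-th power of an element of `Fˣ`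
are congruent modulo `U^p` (valuations). Choose `p^(r+1)` representatives. -/
def L_UNI : Prop :=
  ∀ (p : ℕ) [Fact p.Prime] (F : Type) [Field F] [NumberField F] (ε : F)
    (S : Set (HeightOneSpectrum (𝓞 F))), Sit p F ε S →
  ∃ A : Finset Fˣ, A.card = p ^ (S.ncard + finrank ℚ F / 2) ∧ (∀ x ∈ A, x ∈ S.unit F) ∧
    ∀ x ∈ A, ∀ y ∈ A, x ≠ y → ¬ Pw p (x / y)

/-- **L_LOW** (lower density of the primes at which given elements are `p`-th powers).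

PROOF (from `RS.S_PSM`, `RS.S_DG1`; theorems `Pool.Agent.Helper38.RS.s_psm`, `Pool.Agent.Helper88.RS.s_dg1`). There
is a number field `E ⊇ F` with `[E : F] ≤ p^m` in which all the `y_i` are `p`-th powers, `y_i = r_i^p` (adjoin the
`r_i` one after the other; adjoining a root of `X^p - y`, which is irreducible or has a root as `ε ∈ F`). Let `w`
be a prime of `E` whose norm is a prime number, not above `p`, above `Z`, or above a prime `v` with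
`ord_v(y_i) ≠ 0` for some `i`; `v = w ∩ F`. Then `N v = N w`, the residue fields are equal, `r_i` is a unit at `w`,
`r_i ≡ c mod w` with `c ∈ 𝓞_F`, so `y_i ≡ c^p mod v`, `LocPow p v y_i`. At most `[E : F] ≤ p^m` primes `w` are above
the same `v`. So `p^m ∑_v N(v)^(-s) ≥ ∑_w N(w)^(-s) ≥ log(1/(s-1)) - C` by `S_PSM` for `E` (the `w` whose norm
is not prime: `S_DG1`; finitely many others). -/
def L_LOW : Prop :=
  ∀ (p : ℕ) [Fact p.Prime] (F : Type) [Field F] [NumberField F] (ε : F), IsPrimitiveRoot ε p →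
  ∀ (m : ℕ) (y : Fin m → Fˣ) (Z : Set (HeightOneSpectrum (𝓞 F))), Z.Finite →
  ∃ C : ℝ, ∀ s : ℝ, 1 < s → s ≤ 2 →
    1 / (p : ℝ) ^ m * Real.log (1 / (s - 1)) - C ≤
      Pool.Agent.Helper38.RS.pz {v : HeightOneSpectrum (𝓞 F) | v ∉ Z ∧
        v.valuation F (p : F) = 1 ∧ ∀ i, LocPow p v (y i : F)} s

/-- **L_UPP** (upper density, for elements which are independent modulo `p`-th powers).

PROOF (from `RS.S_PSM`, `RSP.SP_SPL`; theorems `Pool.Agent.Helper38.RS.s_psm`, `Pool.Agent.Helper84.RSP.sp_spl`).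
Induction on `m`, for all fields; `m = 0`: `S_PSM`. Step: let `E = F(r)`, `r^p = y_m` (not a `p`-th power in `F`),
a field of degree `p`. KUMMER: if `z ∈ F` is a `p`-th power in `E` then `z = y_m^a t^p`, `t ∈ F`: if `w^p = z`,
`σ r = ε r` then `σ w = ε^a w` for some `a`, and `w/r^a ∈ F`. So `y_1, ..., y_{m-1}` are independent modulo `p`-th
powers in `E`. Let `A` be the set of the `v` in the statement. By `SP_SPL` every `v ∈ A` has `p` primes `w` of `E`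
above it, with `N w = N v`; and `LocPow p v y → LocPow p w y`. So
`p ∑_{v ∈ A} N(v)^(-s) ≤ ∑_{w ∈ A_E} N(w)^(-s) ≤ p^(1-m) log(1/(s-1)) + C` by the induction hypothesis for `E` and
`y_1, ..., y_{m-1}`. -/
def L_UPP : Prop :=
  ∀ (p : ℕ) [Fact p.Prime] (m : ℕ) (F : Type) [Field F] [NumberField F] (ε : F),
    IsPrimitiveRoot ε p →
  ∀ y : Fin m → Fˣ, (∀ a : Fin m → ℕ, Pw p (∏ i, y i ^ a i) → ∀ i, p ∣ a i) →
  ∃ C : ℝ, ∀ s : ℝ, 1 < s → s ≤ 2 →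
    Pool.Agent.Helper38.RS.pz {v : HeightOneSpectrum (𝓞 F) |
        v.valuation F (p : F) = 1 ∧ ∀ i, LocPow p v (y i : F)} s ≤
      1 / (p : ℝ) ^ m * Real.log (1 / (s - 1)) + C

/-- **L_HIT** (all the lines of the dual of the `S`-units are hit). For a nonzero homomorphism `φ` from the
`S`-units to `ZMod p` and a finite set `Z` there is a prime `W ∉ S ∪ Z` and `n ≠ 0` with `kap_W = n φ` on the
`S`-units.

PROOF (from `K_BAS`, `H_RNK`, `L_LOW`, `L_UPP`). `U = S.unit F`, `U/U^p` is finite (`H_RNK`), and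
`x ∈ U` is the `p`-th power of an element of `Fˣ` iff of `U`. Let `y_1, ..., y_{d-1}` be a basis of
`ker φ` modulo `U^p` and `x₀ ∈ U`, `φ(x₀) ≠ 0`, so `y_1, ..., y_{d-1}, y_d = x₀` is a basis of `U/U^p`. The primes
`v ∉ S ∪ Z` with `LocPow p v y_i` for `i < d` have `∑ N(v)^(-s) ≥ p^(1-d) log(1/(s-1)) - C` (`L_LOW`), those with
`LocPow p v y_i` for all `i ≤ d` have `∑ N(v)^(-s) ≤ p^(-d) log(1/(s-1)) + C` (`L_UPP`). For `s → 1+` there is `W` in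
the first set and not in the second. By `K_BAS` `kap_W` is a homomorphism on `U`, zero on `ker φ` and not zero at
`x₀`; so `kap_W = n φ` on `U` with `n = kap_W(x₀)/φ(x₀) ≠ 0`. -/
def L_HIT : Prop :=
  ∀ (p : ℕ) [Fact p.Prime] (F : Type) [Field F] [NumberField F] (ε : F)
    (S : Set (HeightOneSpectrum (𝓞 F))), Sit p F ε S →
  ∀ φ : S.unit F →* Multiplicative (ZMod p), φ ≠ 1 →
  ∀ Z : Set (HeightOneSpectrum (𝓞 F)), Z.Finite →
  ∃ (W : HeightOneSpectrum (𝓞 F)) (n : ZMod p), W ∉ S ∧ W ∉ Z ∧ n ≠ 0 ∧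
    ∀ x : S.unit F, kap p ε W (x : Fˣ) = n * (φ x).toAdd

/-- **L_LIN** (every line of `Fˣ/(S-units · LocS)` contains the class of a prime). If no `α u`, `u` an `S`-unit,
satisfies `LocS`, there is `γ` in `LocS` such that outside `S` exactly one prime has a valuation of `α γ`
which is not a multiple of `p`.

PROOF (from `K_LOC`, `K_BRK`, `H_A`, `L_IDX`, `L_UNI`, `L_HIT`). Let `U = S.unit F`, `Λ` the group of `LocS`
(`⊇` the `p`-th powers), `R = Fˣ/(U Λ)`, a vector space over `ZMod p`, `d = |S| + [F : ℚ]/2`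
(`[F : ℚ]` is even).
(a) `|R| ≤ p^d`: if `u ∈ U` satisfies `LocS` then `u` is a `p`-th power (`H_A` with `β = u`: `T = ∅`, impossible).
So the `p^d` elements of `L_UNI` are pairwise incongruent modulo `Λ`, `|U Λ/Λ| ≥ p^d`, and
`|Fˣ/Λ| ≤ p^(2d)` by `L_IDX`.
(b) A prime `W ∉ S` has a class `[W] ∈ R`: the class of any `α` with `DivIs S α W` (`Sit.prin`; it is unique
modulo `U`). More generally if `Only p S α W`, the class of `α` is `n [W]` with `n = ord_W(α) mod p`: by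
`Sit.prin` there is `e ∈ Fˣ` with `ord_W(α) = n' + p ord_W(e)`..., i.e. `α = α_W^(ord_W α) e^p u`. Conversely if
`[α] = n [W]`, `n ≠ 0`, then `α u γ = α_W^n` with `u ∈ U`, `γ ∈ Λ`, and so `Only p S (α γ) W`. So we must show:
every nonzero element of `R` is a multiple `n [W]`, `n ≠ 0`, of the class of a prime.
(c) `[W] ≠ 0` if `kap_W ≠ 0` on `U`: otherwise `α_W u = γ ∈ Λ`, `T(γ) = {W}`, and `H_A` gives
`m_W kap_W = 0` on `U`, `m_W ≠ 0`.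
(d) If `W ≠ W'`, `n [W] = n' [W']` with `n, n' ≠ 0` then `kap_W`, `kap_W'` are linearly dependent on `U`:
`α_W^n = α_W'^(n') u γ`, so `T(γ) = {W, W'}`, and `H_A` gives `m_W kap_W + m_W' kap_W' = 0`, `m ≠ 0`.
(e) `U^ = Hom(U, ZMod p)` has at least `p^d` elements (`|U/U^p| ≥ p^d`, `L_UNI`). For every line `ℓ` of `U^` choose
`W_ℓ ∉ S` with `kap_W ∈ ℓ ∖ 0` (`L_HIT`, `Z = ∅`). By (c), (d) the `[W_ℓ]` are nonzero and in different lines of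
`R` (if `W_ℓ = W_ℓ'` then `ℓ = ℓ'`). So the `n [W_ℓ]`, `n ≠ 0`, are at least `p^d - 1` different nonzero elements
of `R`; since `|R| ≤ p^d`, they are all of `R ∖ 0`. -/
def L_LIN : Prop :=
  ∀ (p : ℕ) [Fact p.Prime] (F : Type) [Field F] [NumberField F] (ε : F)
    (S : Set (HeightOneSpectrum (𝓞 F))), Sit p F ε S →
  ∀ α : Fˣ, (¬ ∃ u ∈ S.unit F, LocS p S (α * u)) →
  ∃ (γ : Fˣ) (W : HeightOneSpectrum (𝓞 F)), LocS p S γ ∧ Only p S (α * γ) W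

/-- **G_ZET** (the symbol of a root of unity). `ζ` generates the roots of unity of `p`-power order, there are
`p^k` of them, and `kap_W(ζ) = j (N W - 1)/p^k`, `j ≠ 0`.

PROOF. `k` is the largest integer such that `F` contains a primitive `p^k`-th root of unity `ζ`; `k ≥ 1`. For
`W ∤ p` the image of `ζ` in `κ = 𝓞_F/W` has order `p^k` (its power with exponent `p^(k-1)` is a primitive
`p`-th root of unity `ε^i`, `i ≠ 0`, which is not `1` in `κ`: `K_BAS`), so `p^k ∣ N W - 1`. Write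
`ζ^(p^(k-1)) = ε^j`. Then `ζ^((N W - 1)/p) = (ζ^(p^(k-1)))^((N W - 1)/p^k) = ε^(j (N W - 1)/p^k)`; use `K_BAS`. -/
def G_ZET : Prop :=
  ∀ (p : ℕ) [Fact p.Prime] (F : Type) [Field F] [NumberField F] (ε : F), IsPrimitiveRoot ε p →
  ∃ (k : ℕ) (ζ : Fˣ) (j : ZMod p), 1 ≤ k ∧ IsPrimitiveRoot (ζ : F) (p ^ k) ∧
    (∀ z : F, ¬ IsPrimitiveRoot z (p ^ (k + 1))) ∧ j ≠ 0 ∧
    ∀ W : HeightOneSpectrum (𝓞 F), W.valuation F (p : F) = 1 →
      p ^ k ∣ Ideal.absNorm W.asIdeal - 1 ∧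
      kap p ε W ζ = j * (((Ideal.absNorm W.asIdeal - 1) / p ^ k : ℕ) : ZMod p)

/-- `c` is a unit outside `ℓ` and its symbols are the values of the character `χ` at the norms. -/
structure Gau (p : ℕ) {F : Type} [Field F] [NumberField F] (ε : F) (ℓ : ℕ)
    (χ : (ZMod ℓ)ˣ →* Multiplicative (ZMod p)) (c : Fˣ) : Prop where
  unit : ∀ W : HeightOneSpectrum (𝓞 F), W.valuation F (ℓ : F) = 1 → W.valuation F (c : F) = 1
  val : ∀ W : HeightOneSpectrum (𝓞 F), W.valuation F (p : F) = 1 → W.valuation F (ℓ : F) = 1 →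
    ∀ b : (ZMod ℓ)ˣ, (b : ZMod ℓ) = (Ideal.absNorm W.asIdeal : ZMod ℓ) →
      kap p ε W c = (χ b).toAdd

/-- **G_GAU** (Gauss sums).

PROOF. `(ZMod ℓ)ˣ` is cyclic of order `ℓ - 1`, `p ∣ ℓ - 1`: there is a surjective
`χ : (ZMod ℓ)ˣ → ZMod p`. Let `E = F(ξ)`, `ξ` a primitive `ℓ`-th root of unity (`CyclotomicField ℓ F`), and
`g = ∑_{a ∈ (ZMod ℓ)ˣ} ε^(-χ(a)) ξ^a ∈ 𝓞_E`. For `τ ∈ Gal(E/F)`, `τ ξ = ξ^b`, `b ∈ (ZMod ℓ)ˣ`:
`τ g = ∑_a ε^(-χ(a)) ξ^(ab) = ε^(χ(b)) g`. So `g^p` is fixed by `Gal(E/F)`: `g^p = c ∈ F`. The usual computation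
`g g' = ± ℓ`, `g' = ∑_a ε^(χ(a)) ξ^a` (Mathlib: `gaussSum_mul_gaussSum_eq_card`, or directly:
`∑_{a,b} ε^(χ(b)-χ(a)) ξ^(a+b)`, `b = a t`: `∑_t ε^(χ(t)) ∑_a ξ^(a(1+t)) = (ℓ-1) ε^(χ(-1)) - ∑_{t ≠ -1} ε^(χ(t))
= ℓ ε^(χ(-1))`) shows that `g ≠ 0` and that `c`, `c' = g'^p ∈ F` are algebraic integers with
`c c' = ± ℓ^p` (up to a root of unity): `c` is a unit at `W ∤ ℓ`. Let `W ∤ pℓ`, `q = N W = r^f`, `r` prime,
`w` a prime of `E` above `W`. In characteristic `r`, `(x + y)^q ≡ x^q + y^q mod w`, so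
`g^q ≡ ∑_a ε^(-q χ(a)) ξ^(aq) = ∑_a ε^(-χ(a)) ξ^(aq) = ε^(χ(q)) g` (`q ≡ 1 mod p`; `q ∈ (ZMod ℓ)ˣ` as `W ∤ ℓ`),
and `g` is a unit at `w`: `c^((q-1)/p) = g^(q-1) ≡ ε^(χ(q)) mod w`, and so modulo `W` (both are in `F`). -/
def G_GAU : Prop :=
  ∀ (p : ℕ) [Fact p.Prime] (F : Type) [Field F] [NumberField F] (ε : F), IsPrimitiveRoot ε p →
  ∀ ℓ : ℕ, ℓ.Prime → p ∣ ℓ - 1 →
  ∃ (χ : (ZMod ℓ)ˣ →* Multiplicative (ZMod p)) (c : Fˣ), Function.Surjective χ ∧ Gau p ε ℓ χ c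

/-- **G_EXT** (the same element in an extension).

PROOF. Let `w` be a prime of `E`, `W = w ∩ F`. Valuations `= 1` at `w` and at `W` are the same thing for elements
of `F`. `N w = (N W)^f` (`f` the residue degree), so if `b` is the class of `N w` then `b = b₀^f`, `b₀` the class of
`N W` (a unit, as `N W` is prime to `ℓ`), `χ(b) = f χ(b₀)`; use `K_EXT`. -/
def G_EXT : Prop :=
  ∀ (p : ℕ) [Fact p.Prime] (F E : Type) [Field F] [NumberField F] [Field E] [NumberField E]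
    [Algebra F E] (ε : F), IsPrimitiveRoot ε p →
  ∀ (ℓ : ℕ) [Fact ℓ.Prime] (χ : (ZMod ℓ)ˣ →* Multiplicative (ZMod p)) (c : Fˣ),
    Gau p ε ℓ χ c → Gau p (algebraMap F E ε) ℓ χ (inc F E c)

/-- **G_NRM** (norms). Let `γ ∈ 𝓞_F`, `γ ≠ 0`, be a unit at the primes of `S`, `n` the norm of the ideal `(γ)`. Then
`[c, γ] = χ(n)` and, for `k, ζ, j` as in `G_ZET`, `p^k ∣ n - 1` and `[ζ, γ] = j (n - 1)/p^k`.

PROOF. `n = ∏_W (N W)^(ord_W γ)` over the `W ∣ γ`, which are not in `S` and so not above `p`, `ℓ` (the primes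
above `ℓ` are in `S`). `ord_W(γ) ≥ 0`. So `χ(n) = ∑ ord_W(γ) χ(N W) = [c, γ]` by `Gau.val`. For `ζ`: the function
`n ↦ (n - 1)/p^k mod p` on the `n ≡ 1 mod p^k` is additive
(`a b - 1 = (a - 1)(b - 1) + (a - 1) + (b - 1)`, `k ≥ 1`). -/
def G_NRM : Prop :=
  ∀ (p : ℕ) [Fact p.Prime] (F : Type) [Field F] [NumberField F] (ε : F)
    (S : Set (HeightOneSpectrum (𝓞 F))), Sit p F ε S →
  ∀ (γ : 𝓞 F) (g : Fˣ), (g : F) = γ → (∀ W ∈ S, ordv W (γ : F) = 0) →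
    (∀ (ℓ : ℕ) [Fact ℓ.Prime] (χ : (ZMod ℓ)ˣ →* Multiplicative (ZMod p)) (c : Fˣ), Gau p ε ℓ χ c →
      (∀ W : HeightOneSpectrum (𝓞 F), W.valuation F (ℓ : F) < 1 → W ∈ S) →
      ∀ b : (ZMod ℓ)ˣ, (b : ZMod ℓ) = (Ideal.absNorm (Ideal.span {γ}) : ZMod ℓ) →
        brk p ε S c g = (χ b).toAdd) ∧
    ∀ (k : ℕ) (ζ : Fˣ) (j : ZMod p), 1 ≤ k →
      (∀ W : HeightOneSpectrum (𝓞 F), W.valuation F (p : F) = 1 →
        p ^ k ∣ Ideal.absNorm W.asIdeal - 1 ∧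
        kap p ε W ζ = j * (((Ideal.absNorm W.asIdeal - 1) / p ^ k : ℕ) : ZMod p)) →
      p ^ k ∣ Ideal.absNorm (Ideal.span {γ}) - 1 ∧
      brk p ε S ζ g = j * (((Ideal.absNorm (Ideal.span {γ}) - 1) / p ^ k : ℕ) : ZMod p)

/-- **G_INT** (integral representatives). An element `β` of `LocS` is `(γ₁/γ₂) e^p` with `γ_i ∈ 𝓞_F`,
`γ_i ≡ 1` modulo the primes of `S` and modulo `p^(N)` for a given `N`.

PROOF (from `RP.S_ROO`, theorem `Pool.Agent.Helper12.RP.s_roo`). Let `y` be given by `LocS`, `β' = β y^p`; at the primes of `S` it is `≡ 1`, at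
those above `p` modulo `p³`. *Denominator.* Let `J = ∏_{ord_W(β') < 0} W^(-ord_W β')`, an integral ideal prime to
`S`; by the Chinese remainder theorem there is `δ ∈ J`, `δ ≡ 1 mod p^N ∏_{v ∈ S} v`, `δ ≠ 0`; then `γ = δ β' ∈ 𝓞_F`,
`γ ≡ 1` modulo the `v ∈ S`, and `p³ ∣ γ - 1` (all the primes above `p` are in `S`; `N ≥ 3` without loss of
generality). *Root.* `S_ROO` gives `s ∈ 𝓞_F` with `p^N ∣ s^p - γ`, `p² ∣ s - 1`. By the Chinese remainder theorem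
choose `t ∈ 𝓞_F`, `t ≠ 0`, with `t s ≡ 1 mod p^N` and `t ≡ 1 mod v` for the `v ∈ S`, `v ∤ p` (`s` is prime to `p`).
`γ₁ = γ t^p ≡ 1 mod p^N` and modulo the `v ∈ S` (for `v ∣ p` because `N ≥ 1`), `γ₂ = δ`: `β y^p t^p = γ₁/γ₂`. -/
def G_INT : Prop :=
  ∀ (p : ℕ) [Fact p.Prime] (F : Type) [Field F] [NumberField F] (ε : F)
    (S : Set (HeightOneSpectrum (𝓞 F))), Sit p F ε S →
  ∀ (β : Fˣ) (N : ℕ), LocS p S β →
  ∃ (γ : Fin 2 → 𝓞 F) (g : Fin 2 → Fˣ) (e : Fˣ), (∀ i, (g i : F) = γ i) ∧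
    (∀ i, (p : 𝓞 F) ^ N ∣ γ i - 1) ∧ (∀ i, ∀ v ∈ S, γ i - 1 ∈ v.asIdeal) ∧
    β * g 1 = g 0 * e ^ p

/-- **G_LAW** (the law for `ζ` and `c`).

PROOF (from `K_BRK`, `G_NRM`, `G_INT`). By `G_INT` (with `N = k + 1`) and the additivity of `[x, ·]` (`p`-th
powers contribute `0`) it suffices to show `[ζ, γ] = 0 = [c, γ]` for `γ ∈ 𝓞_F`, `γ ≡ 1 mod p^(k+1)` and modulo
all the `v ∈ S`. `γ` is a unit at `S`. `F` is totally complex, so `N_{F/ℚ}(γ) > 0` is equal to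
`n = |𝓞_F/(γ)|`. Modulo `p^(k+1)`: `n = det(γ | 𝓞_F) ≡ 1`, so `[ζ, γ] = j (n-1)/p^k = 0` by `G_NRM`. Modulo `ℓ`:
`γ - 1` is in all the primes above `ℓ`, so `(γ-1)^m ∈ ℓ 𝓞_F` for some `m`, multiplication by `γ` on
`𝓞_F/ℓ` is unipotent and `n ≡ 1 mod ℓ`; so `[c, γ] = χ(1) = 0`. -/
def G_LAW : Prop :=
  ∀ (p : ℕ) [Fact p.Prime] (F : Type) [Field F] [NumberField F] (ε : F)
    (S : Set (HeightOneSpectrum (𝓞 F))), Sit p F ε S →
    (∀ (ℓ : ℕ) [Fact ℓ.Prime] (χ : (ZMod ℓ)ˣ →* Multiplicative (ZMod p)) (c : Fˣ), Gau p ε ℓ χ c →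
      (∀ W : HeightOneSpectrum (𝓞 F), W.valuation F (ℓ : F) < 1 → W ∈ S) → Law p ε S c) ∧
    ∀ (k : ℕ) (ζ : Fˣ) (j : ZMod p), 1 ≤ k →
      (∀ W : HeightOneSpectrum (𝓞 F), W.valuation F (p : F) = 1 →
        p ^ k ∣ Ideal.absNorm W.asIdeal - 1 ∧
        kap p ε W ζ = j * (((Ideal.absNorm W.asIdeal - 1) / p ^ k : ℕ) : ZMod p)) →
      Law p ε S ζ

/-- **G_IND** (independence). `S₀ ⊆ S`, the primes above `ℓ` are in `S` but not in `S₀`, and `ℓ` is unramified in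
`F`. There is `γ ∈ LocS p S₀`, a unit at `S`, with `[ζ, γ] = 0`, `[c, γ] ≠ 0`.

PROOF (from `G_NRM`). Let `v₀` be a prime above `ℓ`, `κ = 𝓞_F/v₀`. The norm `κˣ → F_ℓˣ` is surjective, so there is
`u ∈ 𝓞_F` whose norm `b₀ = N_{κ/F_ℓ}(u) ∈ F_ℓˣ` has `χ(b₀) ≠ 0`. By the Chinese remainder theorem choose
`γ ∈ 𝓞_F`, `γ ≡ u mod v₀`, `γ ≡ 1` modulo the other `v ∈ S` and modulo `p^(k+3)` (`ℓ ≠ p` since
`p ∣ ℓ - 1`). `γ ∈ LocS p S₀` with `y = 1` (the primes above `p` are in `S`; `v₀ ∉ S₀`). `n = |𝓞_F/(γ)| = N_{F/ℚ}(γ)`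
(`F` is totally complex) is `≡ 1 mod p^(k+1)`, so `[ζ, γ] = 0` by `G_NRM`. Modulo `ℓ`: `𝓞_F/ℓ` is the product of the
residue fields of the primes above `ℓ` (unramified), so `n = det(γ | 𝓞_F/ℓ) = N_{κ/F_ℓ}(u) = b₀`, and
`[c, γ] = χ(b₀) ≠ 0`. -/
def G_IND : Prop :=
  ∀ (p : ℕ) [Fact p.Prime] (F : Type) [Field F] [NumberField F] (ε : F)
    (S S₀ : Set (HeightOneSpectrum (𝓞 F))), Sit p F ε S → S₀ ⊆ S →
  ∀ (ℓ : ℕ) [Fact ℓ.Prime] (χ : (ZMod ℓ)ˣ →* Multiplicative (ZMod p)) (c : Fˣ), p ∣ ℓ - 1 →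
    Function.Surjective χ → Gau p ε ℓ χ c →
    (∀ W : HeightOneSpectrum (𝓞 F), W.valuation F (ℓ : F) < 1 →
      W ∈ S ∧ W ∉ S₀ ∧ ordv W (ℓ : F) = 1) →
  ∀ (k : ℕ) (ζ : Fˣ) (j : ZMod p), 1 ≤ k →
    (∀ W : HeightOneSpectrum (𝓞 F), W.valuation F (p : F) = 1 →
      p ^ k ∣ Ideal.absNorm W.asIdeal - 1 ∧
      kap p ε W ζ = j * (((Ideal.absNorm W.asIdeal - 1) / p ^ k : ℕ) : ZMod p)) →
  ∃ γ : Fˣ, LocS p S₀ γ ∧ (∀ W ∈ S, ordv W (γ : F) = 0) ∧ brk p ε S ζ γ = 0 ∧ brk p ε S c γ ≠ 0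

/-- **G_ELL** (the primes `ℓ`).

PROOF. Infinitely many primes are `≡ 1 mod p` (`Nat.infinite_setOf_prime_modEq_one` or
`Nat.exists_prime_gt_modEq_one`). Only finitely many primes `W` of `F` have `W² ∣ (ℓ)` for the rational prime
`ℓ ∈ W`: such `W` divide the different, or: let `F = ℚ(θ)`, `θ ∈ 𝓞_F`, `d` the discriminant of the minimal
polynomial; if `ℓ ∤ d` then `ℓ` is unramified. (Mathlib: the discriminant or the different; the team library has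
this for relative extensions, see `RS.S_NFI`, `E_EXA` and the `Base` construction of Helper42.) -/
def G_ELL : Prop :=
  ∀ (p : ℕ) [Fact p.Prime] (F : Type) [Field F] [NumberField F],
    {ℓ : ℕ | ℓ.Prime ∧ p ∣ ℓ - 1}.Infinite ∧
    {ℓ : ℕ | ℓ.Prime ∧ ∃ W : HeightOneSpectrum (𝓞 F), W.valuation F (ℓ : F) < 1 ∧
      ordv W (ℓ : F) ≠ 1}.Finite

/-- `ρ` is a homomorphism, trivial on the `S`-units and on `LocS`, and `ρ(α) = kap_W(x)` if `W ∈ G` is the divisor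
of `α` outside `S`. -/
structure Rho (p : ℕ) {F : Type} [Field F] [NumberField F] (ε : F)
    (S : Set (HeightOneSpectrum (𝓞 F))) (x : Fˣ) (G : Set (HeightOneSpectrum (𝓞 F)))
    (ρ : Fˣ → ZMod p) : Prop where
  hom : ∀ a b, ρ (a * b) = ρ a + ρ b
  unit : ∀ u ∈ S.unit F, ρ u = 0
  loc : ∀ β, LocS p S β → ρ β = 0
  val : ∀ W ∈ G, ∀ α, DivIs S α W → ρ α = kap p ε W x

/-- **D_LIN** (an algebraic lemma). Let `A` be an abelian group, `Λ : A → (ZMod p)²` a surjective homomorphism,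
`f : A → ZMod p` a function with `f(a + b) = f(a) + f(b)` whenever `Λ(a)`, `Λ(b)` are linearly independent. There
is a homomorphism `ρ` with `ρ(a) = f(a)` for all `a` with `Λ(a) ≠ 0`.

PROOF. For `κ ∈ ker Λ` and `u` with `Λ(u) ≠ 0` let `g_u(κ) = f(κ + u) - f(u)`. If `Λ(u), Λ(v)` are independent:
`f(κ + u) + f(v) = f(κ + u + v) = f(u) + f(κ + v)`, so `g_u = g_v`. For any `u, u'` with `Λ(u), Λ(u') ≠ 0` there is
`v` with `Λ(v)` independent of `Λ(u)` and of `Λ(u')` (there are `p + 1 ≥ 3` lines), so `g_u = g_{u'} =: g`.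
`g(κ + κ') = f(κ + (κ' + u)) - f(κ' + u) + f(κ' + u) - f(u) = g(κ) + g(κ')`. Let `ρ = f` where `Λ ≠ 0` and
`ρ = g` on `ker Λ`. Additivity `ρ(a + b) = ρ(a) + ρ(b)`: `Λ(a), Λ(b)` independent: hypothesis. `a ∈ ker Λ`,
`Λ(b) ≠ 0`: definition of `g`. Both in `ker Λ`: done. `Λ(a), Λ(b) ≠ 0` dependent: choose `v` with `Λ(v)`
independent of them; `f(a) + f(b) + f(v) = f(a) + f(b + v) = f(a + b + v)`, which is `f(a + b) + f(v)` if
`Λ(a + b) ≠ 0` and `g(a + b) + f(v)` if `a + b ∈ ker Λ`. -/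
def D_LIN : Prop :=
  ∀ (p : ℕ) [Fact p.Prime] (A : Type) [CommGroup A] (Λ : A → ZMod p × ZMod p) (f : A → ZMod p),
    (∀ a b, Λ (a * b) = Λ a + Λ b) → Function.Surjective Λ →
    (∀ a b, (Λ a).1 * (Λ b).2 - (Λ a).2 * (Λ b).1 ≠ 0 → f (a * b) = f a + f b) →
  ∃ ρ : A → ZMod p, (∀ a b, ρ (a * b) = ρ a + ρ b) ∧ ∀ a, Λ a ≠ 0 → ρ a = f a

/-- **D_RHO** (the homomorphism `ρ_x`). Let `c₁, c₂` be `S`-units which satisfy the law, with
`Λ = ([c₁, ·], [c₂, ·])` surjective. For every `S`-unit `x` there is `ρ` as in `Rho` for the set of the `W ∉ S`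
with `kap_W(c₁) ≠ 0` or `kap_W(c₂) ≠ 0`.

PROOF (from `K_BAS`, `K_LOC`, `K_BRK`, `H_A`, `L_LIN`, `D_LIN`). `U = S.unit F`; `Λ` is a homomorphism, trivial on
`U` and `LocS` (`K_BRK`, law). If `Only p S α W`, `n = ord_W(α) mod p`, then `Λ(α) = n (kap_W(c₁), kap_W(c₂))`
(`K_BRK` with `T = {W}`).
(i) Let `Only p S α₁ W₁`, `Only p S α₂ W₂`, `n_i = ord_{W_i}(α_i) mod p`, `Λ(α₁) ≠ 0` and `α₁ = α₂ u γ` with
`u ∈ U`, `γ ∈ LocS`. Then `n₁ kap_{W₁}(x) = n₂ kap_{W₂}(x)`. *Proof.* `Λ(α₁) = Λ(α₂)`. If `W₁ = W₂ = W` and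
`n₁ ≠ n₂` then `T(γ) = {W}`; `γ` is not a `p`-th power, so `H_A` gives `m kap_W = 0` on `U`, `m ≠ 0`, a
contradiction to `Λ(α₁) ≠ 0`. If `W₁ ≠ W₂`, `T(γ) = {W₁, W₂}` with valuations `n₁, -n₂`; `H_A` gives
`(m₁, m₂) ≠ 0` with `m₁ kap_{W₁}(y) + m₂ kap_{W₂}(y) = 0` for all `y ∈ U`. For `i` with `kap_{W₁}(c_i) ≠ 0` the
law for `c_i` and `γ` gives `n₁ kap_{W₁}(c_i) = n₂ kap_{W₂}(c_i)`, so both are nonzero, and the vectors `(m₁, m₂)`
and `(n₁, -n₂)` are both orthogonal to `(kap_{W₁}(c_i), kap_{W₂}(c_i)) ≠ 0`: they are proportional, `m = t (n₁, -n₂)`,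
`t ≠ 0`; take `y = x`.
(ii) For `α` with `Λ(α) ≠ 0` no `α u` is in `LocS`, so `L_LIN` gives `γ_α ∈ LocS` and `W_α` with
`Only p S (α γ_α) W_α`; put `f(α) = ord_{W_α}(α γ_α) kap_{W_α}(x)`. By (i) `f(α) = n kap_W(x)` whenever
`Only p S α' W`, `n = ord_W(α')`, `α' ∈ α U LocS`; in particular `f` is constant on the classes modulo
`U LocS`, and `f(α^(-1)) = -f(α)`. Let `f = 0` where `Λ = 0`.
(iii) If `Λ(α₁), Λ(α₂)` are independent then `f(α₁ α₂) = f(α₁) + f(α₂)`. *Proof.* Put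
`α₃ = (α₁ α₂)^(-1)`, `γ_i = γ_{α_i}`, `W_i`, `n_i = ord_{W_i}(α_i γ_i) mod p`. `γ = ∏ α_i γ_i = γ₁ γ₂ γ₃ ∈ LocS`. The
vectors `κ_i = (kap_{W_i}(c₁), kap_{W_i}(c₂))` are proportional to `Λ(α_i)`, pairwise independent, so the `W_i` are
distinct, `T(γ) = {W₁, W₂, W₃}`, with valuations `n_i`. `H_A`: `m ≠ 0` with `∑ m_i kap_{W_i}(y) = 0` for `y ∈ U`. So
`∑ m_i κ_i = 0`, and the law gives `∑ n_i κ_i = 0`. As `κ₁, κ₂` are independent, the space of the relations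
between `κ₁, κ₂, κ₃` is a line: `m = t n`, `t ≠ 0`. With `y = x`: `f(α₁) + f(α₂) + f(α₃) = 0`, and
`f(α₃) = -f(α₁ α₂)`.
(iv) `D_LIN` gives `ρ`. It is trivial on `U` and `LocS`: for `κ` in one of them and `α` with `Λ(α) ≠ 0`,
`ρ(κ) = ρ(κ α) - ρ(α) = f(κ α) - f(α) = 0`. If `DivIs S α W` and `κ_W = (kap_W(c₁), kap_W(c₂)) ≠ 0` then
`Λ(α) = κ_W ≠ 0` and `ρ(α) = f(α) = kap_W(x)` by (i). -/
def D_RHO : Prop :=
  ∀ (p : ℕ) [Fact p.Prime] (F : Type) [Field F] [NumberField F] (ε : F)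
    (S : Set (HeightOneSpectrum (𝓞 F))), Sit p F ε S →
  ∀ c₁ c₂ : Fˣ, c₁ ∈ S.unit F → c₂ ∈ S.unit F → Law p ε S c₁ → Law p ε S c₂ →
    (∀ a b : ZMod p, ∃ γ, brk p ε S c₁ γ = a ∧ brk p ε S c₂ γ = b) →
  ∀ x ∈ S.unit F, ∃ ρ : Fˣ → ZMod p,
    Rho p ε S x {W | W ∉ S ∧ (kap p ε W c₁ ≠ 0 ∨ kap p ε W c₂ ≠ 0)} ρ

/-- **D_SEX** (principal divisors outside a set which avoids given primes).

PROOF (from `RS.S_REP` over `E` with `𝔪 = ∏_{W ∈ 𝒲} W 𝓞_E`, theorem `Pool.Agent.Helper3.RS.s_rep`). There are nonzero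
ideals `c_1, ..., c_h` of `𝓞_E`, coprime to `𝔪`, such that for every nonzero ideal `J` some `J c_j` is principal.
Let `S` be the set of the primes of `F` below the primes of `E` which divide some `c_j`; it is finite and disjoint
from `𝒲`. For finitely supported `n` let `J = ∏ w^(max(n_w, 0))`, `J' = ∏ w^(max(-n_w, 0))`, `J c_i = (x)`,
`J' c_j = (x')`; then `x/x'` has `ord_w = n_w` for all `w` which do not divide `c_i c_j`, so for all `w` not above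
`S`, and all the more for `w` not above `S' ⊇ S`. -/
def D_SEX : Prop :=
  ∀ (F E : Type) [Field F] [NumberField F] [Field E] [NumberField E] [Algebra F E]
    (𝒲 : Set (HeightOneSpectrum (𝓞 F))), 𝒲.Finite →
  ∃ S : Set (HeightOneSpectrum (𝓞 F)), S.Finite ∧ Disjoint S 𝒲 ∧
    ∀ S' : Set (HeightOneSpectrum (𝓞 F)), S ⊆ S' →
    ∀ n : HeightOneSpectrum (𝓞 E) →₀ ℤ, ∃ x : Eˣ, ∀ w ∉ upS E S', ordv w (x : E) = n w

/-- **D_CYC** (cyclotomic extensions).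

PROOF. `E = F(z)`, `z` a primitive `p^t`-th root of unity (`CyclotomicField (p^t) F`), Galois over `F`, totally
complex because `F` is. Let `W ∤ p`, `p^t ∣ N W - 1`, `w` any prime above `W`. `FreeP F w`: if `g` preserves the
valuation of `w`, it acts on `λ = 𝓞_E/w` and fixes `κ = 𝓞_F/W`; the polynomial `X^(p^t) - 1` has `p^t` roots
in `κ` (`κˣ` is cyclic of order divisible by `p^t`), so the image of `z` in `λ` is in `κ` and `g z ≡ z mod w`. As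
`W ∤ p`, the `p^t`-th roots of unity are distinct modulo `w`: `g z = z`, `g = 1`. So `e = f = 1`
(`Pool/Agent/Helper2/RL/EF1.lean`, `ef_free`) and `N w = N W`. -/
def D_CYC : Prop :=
  ∀ (p : ℕ) [Fact p.Prime] (F : Type) [Field F] [NumberField F] [IsTotallyComplex F] (t : ℕ),
  ∃ (E : Type) (_ : Field E) (_ : NumberField E) (_ : Algebra F E), IsGalois F E ∧
    IsTotallyComplex E ∧ (∃ z : E, IsPrimitiveRoot z (p ^ t)) ∧
    ∀ W : HeightOneSpectrum (𝓞 F), W.valuation F (p : F) = 1 →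
      p ^ t ∣ Ideal.absNorm W.asIdeal - 1 →
      ∃ w : HeightOneSpectrum (𝓞 E), Above w W ∧
        Ideal.absNorm w.asIdeal = Ideal.absNorm W.asIdeal

/-- **D_NRM** (norms in a Galois extension).

PROOF. `S' = upS E S` is stable under `G = Gal(E/F)` and contains all the primes above `S`. (1) The conjugates of an
`S'`-unit are `S'`-units. (2) Let `y` be given by `LocS p S' β`, `β y^p = 1 + z`. For `w ∈ S'` and `g ∈ G`,
`w.valuation(g z) = w'.valuation(z)` with a prime `w'` above the same `v ∈ S`, so it is `< 1` and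
`≤ w.valuation(p)^3` (`v.valuation(p)` determines both). So `N(β) N(y)^p - 1 = ∏_g (1 + g z) - 1` has valuation
`< 1` and `≤ (...)(p)^3` at `w`, and the same holds at `v`. (3) `ord_{w'}(N a) = ∑_g ord_{w'}(g a) =
#{g : g w = w'}` is `e f` if `w'` is above `W` and `0` if `w' ∉ S'` is not above `W`; and
`ord_{w'}(N a) = e ord_W(N a)`, `|𝓞_E/w| = |𝓞_F/W|^f`. -/
def D_NRM : Prop :=
  ∀ (p : ℕ) [Fact p.Prime] (F E : Type) [Field F] [NumberField F] [Field E] [NumberField E]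
    [Algebra F E] [IsGalois F E] (S : Set (HeightOneSpectrum (𝓞 F))), S.Finite →
    (∀ u ∈ (upS E S).unit E, nrm F E u ∈ S.unit F) ∧
    (∀ β : Eˣ, LocS p (upS E S) β → LocS p S (nrm F E β)) ∧
    ∀ (a : Eˣ) (w : HeightOneSpectrum (𝓞 E)), DivIs (upS E S) a w →
      ∀ (W : HeightOneSpectrum (𝓞 F)) (f : ℕ), Above w W →
        Ideal.absNorm w.asIdeal = Ideal.absNorm W.asIdeal ^ f →
        W ∉ S ∧ ordv W ((nrm F E a : Fˣ) : F) = f ∧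
        ∀ W' ∉ S, W' ≠ W → ordv W' ((nrm F E a : Fˣ) : F) = 0

/-- **D_CMP** (comparison of `F` and `E`): `ρ' = ρ ∘ N`.

PROOF (from `K_BAS`, `K_EXT`, `K_BRK`, `K_LOC`, `L_LIN`, `G_EXT`, `D_NRM`). `S' = upS E S`, `c' = inc c`,
`δ(α) = ρ'(α) - ρ(N α)`, a homomorphism `Eˣ → ZMod p`, trivial on the `S'`-units and on `LocS p S'` (`D_NRM`).
Let `Λ(α) = [c', α]_{S'}`, a homomorphism, trivial on `S'`-units and on `LocS` (hypothesis `Law`). CLAIM: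
`δ(α) = 0` if `Λ(α) ≠ 0`. No `α u` is in `LocS`, so `L_LIN` (for `E`, `S'`) gives `γ ∈ LocS`, `V'` with
`Only p S' (α γ) V'`; `0 ≠ Λ(α) = Λ(α γ) = n kap_{V'}(c')`, `n = ord_{V'}(α γ)`, so `kap_{V'}(c') ≠ 0`. Let
`DivIs S' a V'` (`Sit.prin`); `α γ = a^(ord_{V'}(α γ)) e^p u` with `e ∈ Eˣ` and an `S'`-unit `u` (`Sit.prin`), so
`δ(α) = δ(α γ) = n δ(a)`. `ρ'(a) = kap_{V'}(inc x)` since `V' ∈ G'`. Let `V = V' ∩ F`, `N V' = (N V)^f`. By `K_EXT`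
`kap_{V'}(inc x) = f kap_V(x)` and `kap_{V'}(c') = f kap_V(c)`, so `kap_V(c) ≠ 0` and `V ∈ G`. By `D_NRM` the divisor
of `N a` outside `S` is `f V`, so `N a = a₀^f u₀` with `DivIs S a₀ V` and an `S`-unit `u₀`, and
`ρ(N a) = f ρ(a₀) = f kap_V(x)`. So `δ(a) = 0`. Finally if `Λ(α) = 0` take `α'` with `Λ(α') ≠ 0`:
`δ(α) = δ(α α') - δ(α') = 0`. -/
def D_CMP : Prop :=
  ∀ (p : ℕ) [Fact p.Prime] (F E : Type) [Field F] [NumberField F] [Field E] [NumberField E]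
    [Algebra F E] [IsGalois F E] (ε : F) (S : Set (HeightOneSpectrum (𝓞 F))), Sit p F ε S →
    Sit p E (algebraMap F E ε) (upS E S) →
  ∀ c : Fˣ, c ∈ S.unit F → Law p (algebraMap F E ε) (upS E S) (inc F E c) →
    (∃ γ, brk p (algebraMap F E ε) (upS E S) (inc F E c) γ ≠ 0) →
  ∀ x ∈ S.unit F, ∀ (G : Set (HeightOneSpectrum (𝓞 F))) (G' : Set (HeightOneSpectrum (𝓞 E)))
    (ρ : Fˣ → ZMod p) (ρ' : Eˣ → ZMod p), Rho p ε S x G ρ →
    Rho p (algebraMap F E ε) (upS E S) (inc F E x) G' ρ' →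
    (∀ W, W ∉ S → kap p ε W c ≠ 0 → W ∈ G) →
    (∀ w, w ∉ upS E S → kap p (algebraMap F E ε) w (inc F E c) ≠ 0 → w ∈ G') →
  ∀ α : Eˣ, ρ' α = ρ (nrm F E α)

/-- **D_ALL** (all the primes of a finite set). Given `S₀` and a finite set `𝒲` of primes outside `S₀` there is
`S ⊇ S₀` disjoint from `𝒲`, with two elements `c₁, c₂` which satisfy the law, such that `ρ` exists for every
`S`-unit `x`, with value `kap_W(x)` also at the `W ∈ 𝒲`.

PROOF (from `K_BAS`, `K_EXT`, `G_ZET`, `G_GAU`, `G_EXT`, `G_LAW`, `G_IND`, `G_ELL`, `D_SEX`, `D_CYC`, `D_NRM`,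
`D_RHO`, `D_CMP`, `L_HIT`). For `W ∈ 𝒲` (not above `p`) let `t_W` be the `p`-adic valuation of `N W - 1` and
`E_W = F(ζ_{p^(t_W)})` as in `D_CYC`. Choose a prime `ℓ`, `p ∣ ℓ - 1` (so `ℓ ≠ p`), unramified in `F` and in all the
`E_W`, such that no prime of `𝒲 ∪ S₀` is above `ℓ` (`G_ELL`; finitely many `ℓ` are excluded). By `D_SEX` choose a
finite set `S ⊇ S₀` which contains the primes above `ℓ`, disjoint from `𝒲`, such that all divisors of `F` and of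
the `E_W` are principal outside `S`, `upS E_W S`. So `Sit p F ε S` and `Sit p E_W ε (upS E_W S)` (all the primes
of `E_W` above `p` are above primes of `S`). Let `χ, c` be given by `G_GAU` for `F`, and `k, ζ, j` by `G_ZET`. Put
`c₁ = ζ`, `c₂ = c`; they are `S`-units and satisfy the law (`G_LAW`). `β'`: `G_IND`. *Surjectivity* of
`Λ = ([ζ, ·], [c, ·])`: the image is a subspace of `(ZMod p)²` which contains `(0, b)`, `b ≠ 0` (`G_IND`), and a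
vector with nonzero first coordinate: `ζ` is not a `p`-th power in `F` (no primitive `p^(k+1)`-th root of
unity), so there is a homomorphism `φ` from the `S`-units to `ZMod p` with `φ(ζ) ≠ 0`, and `L_HIT` gives
`V ∉ S` with `kap_V(ζ) ≠ 0`; take an element with divisor `V`. So `D_RHO` gives, for `x ∈ S.unit F`, a `ρ` with
`G = {W ∉ S : kap_W(ζ) ≠ 0 or kap_W(c) ≠ 0}`. It remains to show `ρ(α) = kap_W(x)` if `W ∈ 𝒲`, `DivIs S α W`.
Let `E = E_W`, `S' = upS E S`, `t = t_W`, `k', ζ', j'` given by `G_ZET` for `E`, `ε' = algebraMap ε`. By `D_CYC`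
there is `w` above `W` with `N w = N W`. `k' ≥ t` since `E` contains a primitive `p^t`-th root of unity, and
`p^(k') ∣ N w - 1 = N W - 1` gives `k' ≤ t`; so `k' = t` and `kap_w(ζ') = j' (N w - 1)/p^t ≠ 0`. `w ∉ S'`. As above
(`G_EXT`, `G_LAW`, `G_IND` for `E` with `S₀ = ∅`, and the prime `w` for the first coordinate) `ζ'` and
`c' = inc c` satisfy the hypotheses of `D_RHO` over `E`, so there is `ρ'` for `inc x`, with
`G' = {w ∉ S' : kap_w(ζ') ≠ 0 or kap_w(c') ≠ 0}`. By `D_CMP` `ρ' = ρ ∘ N`. Let `DivIs S' a w`. By `D_NRM` (`f = 1`)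
`DivIs S (N a) W`, so `N a = α u` with an `S`-unit `u` and
`ρ(α) = ρ(N a) = ρ'(a) = kap_w(inc x) = kap_W(x)` (`w ∈ G'`, `K_EXT` with `f = 1`). -/
def D_ALL : Prop :=
  ∀ (p : ℕ) [Fact p.Prime] (F : Type) [Field F] [NumberField F] (ε : F)
    (S₀ : Set (HeightOneSpectrum (𝓞 F))), Sit p F ε S₀ →
  ∀ 𝒲 : Finset (HeightOneSpectrum (𝓞 F)), (∀ W ∈ 𝒲, W ∉ S₀) →
  ∃ S : Set (HeightOneSpectrum (𝓞 F)), S₀ ⊆ S ∧ Sit p F ε S ∧ (∀ W ∈ 𝒲, W ∉ S) ∧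
  ∃ c₁ c₂ : Fˣ, c₁ ∈ S.unit F ∧ c₂ ∈ S.unit F ∧ Law p ε S c₁ ∧ Law p ε S c₂ ∧
    (∃ β' : Fˣ, LocS p S₀ β' ∧ (∀ v ∈ S, ordv v (β' : F) = 0) ∧ brk p ε S c₂ β' ≠ 0) ∧
    ∀ x ∈ S.unit F, ∃ ρ : Fˣ → ZMod p,
      Rho p ε S x {W | W ∉ S ∧ (kap p ε W c₁ ≠ 0 ∨ kap p ε W c₂ ≠ 0 ∨ W ∈ 𝒲)} ρ

/-- **R_ONE** (the one-sided law).

PROOF (from `K_BAS`, `K_LOC`, `K_BRK`, `H_A`, `L_LIN`, `D_ALL`). Let `x ∈ S₀.unit F`, `β ∈ LocS p S₀`,
`𝒲 = {W ∉ S₀ : p ∤ ord_W(β)}` (finite), `S, c₁, c₂, β'` as in `D_ALL`, `ρ` for `x ∈ S.unit F`.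
(i) `ρ(β) = [x, β]_{S₀}`: `β = ∏_{W ∈ 𝒲} α_W^(ord_W β) e^p u` with `DivIs S α_W W`, `e ∈ Fˣ`, `u ∈ S.unit F`
(`Sit.prin`: for `W ∉ S`, `W ∉ 𝒲`, `p ∣ ord_W(β)`), so `ρ(β) = ∑_{W ∈ 𝒲} ord_W(β) kap_W(x)` (`Rho.val`; `e^p`
satisfies `LocS`), which is `[x, β]_{S₀}` by `K_BRK`.
(ii) Let `B` be the set of the `β ∈ LocS p S₀` with `p ∣ ord_v(β)` for `v ∈ S`. `β ∈ B` (`𝒲` is disjoint from `S`;
for `v ∈ S₀` by `K_LOC`). CLAIM: `ρ = 0` on the `β ∈ B` with `Λ(β) ≠ 0`, `Λ = ([c₁, ·]_S, [c₂, ·]_S)`. `Λ` is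
trivial on `S`-units and `LocS p S`, so `L_LIN` gives `γ ∈ LocS p S`, `V` with `Only p S (β γ) V`. Let `π = β γ`,
`n = ord_V(π)`: `0 ≠ Λ(β) = Λ(π) = n (kap_V(c₁), kap_V(c₂))`, so `V ∈ G` and, as in (i), `ρ(π) = n kap_V(x)`.
`π ∈ LocS p S₀` and `p ∣ ord_v(π)` for `v ∈ S` (`K_LOC` for `γ`); so, outside `S₀`, `V` is the only prime with
`p ∤ ord_V(π)`. `π` is not a `p`-th power; `H_A` for `S₀`, `π`, `T = {V}`: `m kap_V(x) = 0`, `m ≠ 0`. So `ρ(β) =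
ρ(π) = 0`. (iii) If `β ∈ B`, `Λ(β) = 0`: `β' ∈ B`, `Λ(β') ≠ 0`, so `ρ(β') = 0`, `ρ(β β') = 0` and `ρ(β) = 0`. -/
def R_ONE : Prop :=
  ∀ (p : ℕ) [Fact p.Prime] (F : Type) [Field F] [NumberField F] (ε : F)
    (S : Set (HeightOneSpectrum (𝓞 F))), Sit p F ε S → ∀ x ∈ S.unit F, Law p ε S x

end Pool.Agent.Helper51.REC
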