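import Pool.Agent.Helper51.REC.GNRM
import Pool.Agent.Helper51.REC.Goals3
import Pool.Agent.Helper13.REC.HHER
import Pool.Agent.Helper14.REC.RTWO
import Pool.Agent.Helper16.REC.KBAS
import Pool.Agent.Helper19.REC.HH90
import Pool.Agent.Helper2.REC.DALL
import Pool.Agent.Helper27.REC.DCYC
import Pool.Agent.Helper28.REC.GEXT
import Pool.Agent.Helper28.REC.HRAM
import Pool.Agent.Helper3.REC.DLIN
import Pool.Agent.Helper32.REC.DRHO
import Pool.Agent.Helper32.REC.TLIN
import Pool.Agent.Helper33.REC.KBRK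
import Pool.Agent.Helper36.REC.GIND
import Pool.Agent.Helper36.REC.GLAW
import Pool.Agent.Helper39.REC.KEXT
import Pool.Agent.Helper46.REC.LHIT
import Pool.Agent.Helper48.REC.HSPL
import Pool.Agent.Helper5.REC.GGAU
import Pool.Agent.Helper50.REC.TONE
import Pool.Agent.Helper53.REC.HA
import Pool.Agent.Helper53.REC.HKUM
import Pool.Agent.Helper53.REC.LUPP
import Pool.Agent.Helper54.REC.GINT
import Pool.Agent.Helper56.REC.GELL
import Pool.Agent.Helper58.REC.LIDX
import Pool.Agent.Helper59.REC.DNRM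
import Pool.Agent.Helper6.REC.DCMP
import Pool.Agent.Helper6.REC.RONE
import Pool.Agent.Helper64.REC.LLIN
import Pool.Agent.Helper69.REC.KAPP
import Pool.Agent.Helper70.REC.RDUA
import Pool.Agent.Helper74.REC.TCON
import Pool.Agent.Helper8.REC.LLOW
import Pool.Agent.Helper83.REC.HRNK
import Pool.Agent.Helper85.REC.HCNT
import Pool.Agent.Helper86.REC.GZET
import Pool.Agent.Helper86.REC.HIDX
import Pool.Agent.Helper9.REC.KLOC
import Pool.Agent.Helper90.REC.HUNI
import Pool.Agent.Helper91.REC.LIDP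
import Pool.Agent.Helper95.REC.LUNI
import Pool.Agent.Helper96.REC.DSEX

/-!
# Project REC: assembly

All goals of `Goals1`, `Goals2`, `Goals3` without hypotheses. The main results are `r_one` (the one-sided
law), `r_two` (the two-sided law) and `r_dua` (duality between classes of `S`-units and `LocS`).
-/

set_option autoImplicit false

namespace Pool.Agent.Helper51.REC

theorem k_bas : K_BAS := Helper16.REC.k_bas
theorem k_app : K_APP := Helper69.REC.k_app
theorem k_ext : K_EXT := Helper39.REC.k_ext k_bas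
theorem k_brk : K_BRK := Helper33.REC.k_brk k_bas
theorem k_loc : K_LOC := Helper9.REC.k_loc k_app

theorem h_idx : H_IDX := Helper86.REC.h_idx
theorem h_her : H_HER := Helper13.REC.h_her h_idx
theorem h_rnk : H_RNK := Helper83.REC.h_rnk
theorem h_kum : H_KUM := Helper53.REC.h_kum
theorem h_spl : H_SPL := Helper48.REC.h_spl
theorem h_ram : H_RAM := Helper28.REC.h_ram
theorem h_cnt : H_CNT := Helper85.REC.h_cnt
theorem h_uni : H_UNI := Helper90.REC.h_uni h_rnk h_spl h_cnt
theorem h_h90 : H_H90 := Helper19.REC.h_h90 h_ram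
theorem h_a : H_A := Helper53.REC.h_a k_bas h_kum h_ram h_uni h_her h_h90

theorem l_idp : L_IDP := Helper91.REC.l_idp
theorem l_idx : L_IDX := Helper58.REC.l_idx k_app l_idp
theorem l_uni : L_UNI := Helper95.REC.l_uni h_rnk
theorem l_low : L_LOW := Helper8.REC.l_low
theorem l_upp : L_UPP := Helper53.REC.l_upp
theorem l_hit : L_HIT := Helper46.REC.l_hit k_bas h_rnk l_low l_upp
theorem l_lin : L_LIN := Helper64.REC.l_lin k_loc k_brk h_a l_idx l_uni l_hit

theorem g_zet : G_ZET := Helper86.REC.g_zet k_bas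
theorem g_gau : G_GAU := Helper5.REC.g_gau k_bas
theorem g_ext : G_EXT := Helper28.REC.g_ext k_ext
theorem g_int : G_INT := Helper54.REC.g_int
theorem g_law : G_LAW := Helper36.REC.g_law k_brk g_nrm g_int
theorem g_ind : G_IND := Helper36.REC.g_ind g_nrm
theorem g_ell : G_ELL := Helper56.REC.g_ell

theorem d_lin : D_LIN := Helper3.REC.d_lin
theorem d_rho : D_RHO := Helper32.REC.d_rho k_bas k_loc k_brk h_a l_lin d_lin
theorem d_sex : D_SEX := Helper96.REC.d_sex
theorem d_cyc : D_CYC := Helper27.REC.d_cyc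
theorem d_nrm : D_NRM := Helper59.REC.d_nrm
theorem d_cmp : D_CMP := Helper6.REC.d_cmp k_bas k_ext k_brk k_loc l_lin d_nrm
theorem d_all : D_ALL :=
  Helper2.REC.d_all k_bas k_ext k_brk g_zet g_gau g_ext g_law g_ind g_ell d_sex d_cyc d_nrm d_rho
    d_cmp l_hit h_rnk

/-- The one-sided law: `[x, β] = 0` for an `S`-unit `x` and `β` locally a `p`-th power at `S`. -/
theorem r_one : R_ONE := Helper6.REC.r_one k_bas k_loc k_brk h_a l_lin d_all

theorem t_lin : T_LIN := Helper32.REC.t_lin k_bas k_app k_loc k_brk r_one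
theorem t_con : T_CON := Helper74.REC.t_con k_bas k_app k_loc k_brk h_a l_lin
theorem t_one : T_ONE := Helper50.REC.t_one k_bas k_app k_loc k_brk

/-- The two-sided law. -/
theorem r_two : R_TWO := Helper14.REC.r_two t_lin t_con t_one

/-- Duality. -/
theorem r_dua : R_DUA := Helper70.REC.r_dua k_bas k_loc k_brk h_a l_idx l_uni l_hit r_one

end Pool.Agent.Helper51.REC
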