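import Pool.Agent.Helper42.PP.Defs

/-!
# Project REC (MP_fc6b1e_nt, stage 3): reciprocity for `p`-th power residue symbols

`F` is a totally complex number field, `ε ∈ F` a primitive `p`-th root of unity, `S` a finite set of primes
of `F` which contains the primes above `p`. For a prime `W ∤ p` and `x ∈ Fˣ` with `p ∣ ord_W(x)` the symbol
`kap_W(x) ∈ ZMod p` is defined by `(x y^p)^((N W - 1)/p) ≡ ε^(kap_W(x)) mod W`, where `x y^p` is a unit at `W`.
For `x, β ∈ Fˣ` let `[x, β] = ∑_{W ∉ S} ord_W(β) kap_W(x)`.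

*One-sided law* (`R_ONE`): `[x, β] = 0` if `x` is an `S`-unit and `β` is locally a `p`-th power at the primes
of `S` (`LocS p S β`). *Two-sided law* (`R_TWO`): `[x, β] = [β, x]` for `LocS p S β` and any `x` such that at
every prime `W ∉ S` the valuation of `x` or that of `β` is a multiple of `p`.

Proof in outline. (A) Herbrand quotient of the `S`-units of `F(β^(1/p))`: if `β` satisfies `LocS`, the vectors
`kap_W`, `W ∈ T(β) = {W ∉ S : p ∤ ord_W(β)}`, on the `S`-units are linearly dependent (`H_A`). (B) Counting: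
every line of `Fˣ/(S-units · LocS)` contains the class of a prime (`L_LIN`). (C) The law holds for
`ζ` of `p`-power order and for the `p`-th power `c` of a Gauss sum (`G_LAWZ`, `G_LAWC`). (D) These two
elements determine the relation of (A) for two and three primes, and so `kap_W(x) = ρ_x(W)` with a
homomorphism `ρ_x`, for the primes at which `ζ` or `c` is not a `p`-th power (`D_RHO`). (E) For the other primes
pass to `F(ζ_{p^t})` (`D_ALL`). (F) The conductor (`R_ONE`). (G) The two-sided law (`R_TWO`).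
-/

set_option autoImplicit false

namespace Pool.Agent.Helper51.REC

open NumberField Module IsDedekindDomain Pool.Agent.Helper51.RP Pool.Agent.Helper42.PP

/-- `x y^p` is a unit at `W`, and its power with exponent `(N W - 1)/p` is congruent to `ε^a`. -/
def IsKap (p : ℕ) {F : Type} [Field F] [NumberField F] (ε : F) (W : HeightOneSpectrum (𝓞 F))
    (x : Fˣ) (a : ZMod p) : Prop :=
  ∃ y : Fˣ, W.valuation F ((x : F) * (y : F) ^ p) = 1 ∧
    W.valuation F (((x : F) * (y : F) ^ p) ^ ((Ideal.absNorm W.asIdeal - 1) / p) - ε ^ a.val) < 1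

open Classical in
/-- The symbol `kap_W(x)` (and `0` if it is not defined, that is if `p ∤ ord_W(x)`). -/
noncomputable def kap (p : ℕ) {F : Type} [Field F] [NumberField F] (ε : F)
    (W : HeightOneSpectrum (𝓞 F)) (x : Fˣ) : ZMod p :=
  if h : ∃ a, IsKap p ε W x a then h.choose else 0

/-- The situation: `ε` is a primitive `p`-th root of unity, `F` is totally complex, `S` is finite and contains
the primes above `p`, and every divisor is principal outside `S`. -/
structure Sit (p : ℕ) (F : Type) [Field F] [NumberField F] (ε : F)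
    (S : Set (HeightOneSpectrum (𝓞 F))) : Prop where
  prim : IsPrimitiveRoot ε p
  cplx : IsTotallyComplex F
  fin : S.Finite
  abp : ∀ W : HeightOneSpectrum (𝓞 F), W.valuation F (p : F) < 1 → W ∈ S
  prin : ∀ n : HeightOneSpectrum (𝓞 F) →₀ ℤ, ∃ x : Fˣ, ∀ W ∉ S, ordv W (x : F) = n W

open Classical in
/-- `[x, β] = ∑_{W ∉ S} ord_W(β) kap_W(x)` (a finite sum). -/
noncomputable def brk (p : ℕ) {F : Type} [Field F] [NumberField F] (ε : F)
    (S : Set (HeightOneSpectrum (𝓞 F))) (x β : Fˣ) : ZMod p :=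
  ∑ᶠ W : HeightOneSpectrum (𝓞 F), if W ∈ S then 0 else ((ordv W (β : F) : ℤ) : ZMod p) * kap p ε W x

/-- The one-sided law for the element `x`. -/
def Law (p : ℕ) {F : Type} [Field F] [NumberField F] (ε : F)
    (S : Set (HeightOneSpectrum (𝓞 F))) (x : Fˣ) : Prop :=
  ∀ β : Fˣ, LocS p S β → brk p ε S x β = 0

/-- Outside `S`, the valuation of `β` is prime to `p` at `W` and a multiple of `p` at the other primes. -/
def Only (p : ℕ) {F : Type} [Field F] [NumberField F] (S : Set (HeightOneSpectrum (𝓞 F)))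
    (β : Fˣ) (W : HeightOneSpectrum (𝓞 F)) : Prop :=
  W ∉ S ∧ ¬ (p : ℤ) ∣ ordv W (β : F) ∧ ∀ W' ∉ S, W' ≠ W → (p : ℤ) ∣ ordv W' (β : F)

/-- Outside `S`, the divisor of `β` is the prime `W`. -/
def DivIs {F : Type} [Field F] [NumberField F] (S : Set (HeightOneSpectrum (𝓞 F)))
    (β : Fˣ) (W : HeightOneSpectrum (𝓞 F)) : Prop :=
  W ∉ S ∧ ordv W (β : F) = 1 ∧ ∀ W' ∉ S, W' ≠ W → ordv W' (β : F) = 0

/-- The primes of `E` above the primes in `S`. -/
def upS {F : Type} (E : Type) [Field F] [NumberField F] [Field E] [NumberField E] [Algebra F E]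
    (S : Set (HeightOneSpectrum (𝓞 F))) : Set (HeightOneSpectrum (𝓞 E)) :=
  {w | ∃ v ∈ S, Above w v}

/-- The elements fixed by `σ`. -/
def fixG {M : Type} [CommGroup M] (σ : M ≃* M) : Subgroup M where
  carrier := {x | σ x = x}
  mul_mem' := fun {a b} ha hb ↦ by
    simp only [Set.mem_setOf_eq] at *
    rw [map_mul, ha, hb]
  one_mem' := map_one σ
  inv_mem' := fun {a} ha ↦ by
    simp only [Set.mem_setOf_eq] at *
    rw [map_inv, ha]

/-- The norm `x ↦ ∏_{i < p} σ^i(x)`. -/
noncomputable def nmG (p : ℕ) {M : Type} [CommGroup M] (σ : M ≃* M) : M →* M :=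
  ∏ i ∈ Finset.range p, ((σ ^ i : MulAut M) : M ≃* M).toMonoidHom

/-- `x ↦ x/σ(x)`. -/
def dfG {M : Type} [CommGroup M] (σ : M ≃* M) : M →* M := (MonoidHom.id M) / σ.toMonoidHom

end Pool.Agent.Helper51.REC
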