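import Pool.Agent.Helper51.REC.Goals2
import Pool.Agent.Helper33.REC.KBRK

/-!
# REC-G_NRM: norms
-/

set_option autoImplicit false

namespace Pool.Agent.Helper51.REC

open NumberField Module IsDedekindDomain Pool.Agent.Helper51.RP Pool.Agent.Helper42.PP

section

variable {F : Type} [Field F] [NumberField F]

theorem ordv_count (γ : 𝓞 F) (hγ : γ ≠ 0) (W : HeightOneSpectrum (𝓞 F)) :
    ordv W (γ : F) =
      ((Associates.mk W.asIdeal).count (Associates.mk (Ideal.span {γ} : Ideal (𝓞 F))).factors : ℤ) := by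
  classical
  unfold ordv
  have h : W.valuation F (γ : F) = W.intValuation γ := HeightOneSpectrum.valuation_of_algebraMap W γ
  rw [h, HeightOneSpectrum.intValuation_if_neg W hγ, WithZero.log_exp, neg_neg]

theorem norm_prod (γ : 𝓞 F) (hγ : γ ≠ 0) (s : Finset (HeightOneSpectrum (𝓞 F)))
    (hs : ∀ W : HeightOneSpectrum (𝓞 F), ordv W (γ : F) ≠ 0 → W ∈ s) :
    Ideal.absNorm (Ideal.span {γ}) = ∏ W ∈ s, Ideal.absNorm W.asIdeal ^ (ordv W (γ : F)).toNat := by
  classical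
  have hI : (Ideal.span {γ} : Ideal (𝓞 F)) ≠ 0 := by
    rw [Ideal.zero_eq_bot, ne_eq, Ideal.span_singleton_eq_bot]
    exact hγ
  have h1 := Ideal.finprod_heightOneSpectrum_factorization hI
  have h2 : ∏ᶠ W : HeightOneSpectrum (𝓞 F), W.maxPowDividing (Ideal.span {γ}) =
      ∏ W ∈ s, W.asIdeal ^ (ordv W (γ : F)).toNat := by
    rw [finprod_eq_prod_of_mulSupport_subset _ (s := s)]
    · refine Finset.prod_congr rfl fun W _ ↦ ?_
      rw [ordv_count γ hγ, Int.toNat_natCast]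
      rfl
    · intro W hW
      apply hs
      intro h0
      apply hW
      rw [ordv_count γ hγ] at h0
      show W.asIdeal ^ _ = 1
      rw [Int.natCast_eq_zero.1 h0, pow_zero]
  rw [← h1, h2, map_prod]
  exact Finset.prod_congr rfl fun W _ ↦ map_pow _ _ _

theorem nrm_core {p : ℕ} [Fact p.Prime] (ε : F) (S : Set (HeightOneSpectrum (𝓞 F)))
    (γ : 𝓞 F) (g : Fˣ) (hg : (g : F) = γ) (hS : ∀ W ∈ S, ordv W (γ : F) = 0)
    (Q : ℕ → ZMod p → Prop) (h1 : Q 1 0)
    (hm : ∀ a b u v, Q a u → Q b v → Q (a * b) (u + v)) (x : Fˣ)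
    (hQ : ∀ W ∉ S, Q (Ideal.absNorm W.asIdeal) (kap p ε W x)) :
    Q (Ideal.absNorm (Ideal.span {γ})) (brk p ε S x g) := by
  classical
  have hγ : γ ≠ 0 := by
    rintro rfl
    exact g.ne_zero (by rw [hg]; rfl)
  have hpow : ∀ (a : ℕ) (u : ZMod p) (n : ℕ), Q a u → Q (a ^ n) (n * u) := by
    intro a u n ha
    induction n with
    | zero => simpa using h1
    | succ n ih =>
      have := hm _ _ _ _ ih ha
      rw [pow_succ, Nat.cast_succ, add_mul, one_mul]
      exact this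
  have hf := Pool.Agent.Helper33.REC.finite_ordv g
  set s := hf.toFinset with hs
  have h3 : ∀ W : HeightOneSpectrum (𝓞 F), ordv W (γ : F) ≠ 0 → W ∈ s := by
    intro W hW
    rw [hs, Set.Finite.mem_toFinset, Set.mem_setOf_eq, hg]
    exact hW
  have h4 : brk p ε S x g = ∑ W ∈ s, if W ∈ S then 0 else
      ((ordv W (γ : F) : ℤ) : ZMod p) * kap p ε W x := by
    unfold brk
    rw [hg]
    refine finsum_eq_sum_of_support_subset _ ?_
    intro W hW
    apply h3
    intro h0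
    apply hW
    simp [h0]
  rw [norm_prod γ hγ s h3, h4]
  clear h4 h3
  clear_value s
  clear hs hf
  induction s using Finset.induction_on with
  | empty => simpa using h1
  | insert W t hW ih =>
    rw [Finset.prod_insert hW, Finset.sum_insert hW]
    refine hm _ _ _ _ ?_ ih
    split_ifs with hWS
    · rw [hS W hWS]
      simpa using h1
    · have h5 : ordv W (γ : F) = (((ordv W (γ : F)).toNat : ℕ) : ℤ) := by
        rw [ordv_count γ hγ, Int.toNat_natCast]
      have h6 := hpow _ _ (ordv W (γ : F)).toNat (hQ W hWS)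
      have h7 : ((ordv W (γ : F) : ℤ) : ZMod p) = (((ordv W (γ : F)).toNat : ℕ) : ZMod p) := by
        conv_lhs => rw [h5]
        rw [Int.cast_natCast]
      rw [h7]
      exact h6

theorem nat_mem_iff (W : HeightOneSpectrum (𝓞 F)) (n : ℕ) :
    W.valuation F (n : F) < 1 ↔ (n : 𝓞 F) ∈ W.asIdeal := by
  have h := HeightOneSpectrum.valuation_lt_one_iff_mem (K := F) W (n : 𝓞 F)
  have h1 : (((n : 𝓞 F) : 𝓞 F) : F) = (n : F) := map_natCast (algebraMap (𝓞 F) F) n
  rw [← h1]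
  exact h

/-- The norm of a prime not above `ℓ` is prime to `ℓ`. -/
theorem norm_unit (W : HeightOneSpectrum (𝓞 F)) (ℓ : ℕ) [hℓ : Fact ℓ.Prime]
    (h : ¬ W.valuation F (ℓ : F) < 1) : IsUnit (Ideal.absNorm W.asIdeal : ZMod ℓ) := by
  rw [isUnit_iff_ne_zero]
  intro h0
  rw [ZMod.natCast_eq_zero_iff] at h0
  apply h
  rw [nat_mem_iff]
  have h1 := W.isPrime
  have h2 : W.asIdeal ≠ ⊥ := W.ne_bot
  -- the quotient has an element killed by the prime
  have h3 : Finite (𝓞 F ⧸ W.asIdeal) := Ideal.finiteQuotientOfFreeOfNeBot _ h2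
  have h4 : Ideal.absNorm W.asIdeal = Nat.card (𝓞 F ⧸ W.asIdeal) := rfl
  rw [h4] at h0
  obtain ⟨y, hy⟩ := exists_prime_addOrderOf_dvd_card' (G := 𝓞 F ⧸ W.asIdeal) ℓ h0
  obtain ⟨z, rfl⟩ := Ideal.Quotient.mk_surjective y
  have h5 : ℓ • (Ideal.Quotient.mk W.asIdeal z) = 0 := by rw [← hy]; exact addOrderOf_nsmul_eq_zero _
  have h6 : (ℓ : 𝓞 F) * z ∈ W.asIdeal := by
    rw [← Ideal.Quotient.eq_zero_iff_mem, map_mul, map_natCast, ← nsmul_eq_mul]
    exact h5
  rcases h1.mem_or_mem h6 with h7 | h7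
  · exact h7
  · exfalso
    rw [Ideal.Quotient.eq_zero_iff_mem.2 h7, addOrderOf_zero] at hy
    exact hℓ.out.one_lt.ne hy

theorem g_nrm : G_NRM := by
  intro p hp F _ _ ε S hSit γ g hg hS
  have hpS : ∀ W ∉ S, W.valuation F (p : F) = 1 := by
    intro W hW
    have h1 : W.valuation F (p : F) ≤ 1 := Pool.Agent.Helper33.REC.val_le_one p W
    exact le_antisymm h1 (not_lt.1 fun h ↦ hW (hSit.abp W h))
  refine ⟨fun ℓ hℓ χ c hc hℓS b hb ↦ ?_, fun k ζ j hk hj ↦ ?_⟩
  · have h := nrm_core ε S γ g hg hS (fun a u ↦ ∃ b : (ZMod ℓ)ˣ, (b : ZMod ℓ) = a ∧ u = (χ b).toAdd)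
      ⟨1, by simp, by simp⟩ (by
        rintro a a' u v ⟨b, hb, rfl⟩ ⟨b', hb', rfl⟩
        refine ⟨b * b', ?_, ?_⟩
        · rw [Units.val_mul, hb, hb', Nat.cast_mul]
        · rw [map_mul, toAdd_mul]) c (by
        intro W hW
        have h1 : ¬ W.valuation F (ℓ : F) < 1 := fun h ↦ hW (hℓS W h)
        obtain ⟨b, hb⟩ := norm_unit W ℓ h1
        have h2 : W.valuation F (ℓ : F) = 1 :=
          le_antisymm (Pool.Agent.Helper33.REC.val_le_one ℓ W) (not_lt.1 h1)
        exact ⟨b, hb, hc.val W (hpS W hW) h2 b hb⟩)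
    obtain ⟨b', hb', h2⟩ := h
    rw [h2]
    have h3 : b' = b := Units.ext (hb'.trans hb.symm)
    rw [h3]
  · have hpk : 0 < p ^ k := pow_pos hp.out.pos k
    have h := nrm_core ε S γ g hg hS
      (fun a u ↦ ∃ m : ℕ, a = 1 + p ^ k * m ∧ u = j * (m : ZMod p))
      ⟨0, by simp, by simp⟩ (by
        rintro a a' u v ⟨m, rfl, rfl⟩ ⟨m', rfl, rfl⟩
        refine ⟨m + m' + p ^ k * m * m', by ring, ?_⟩
        have h0 : ((p ^ k : ℕ) : ZMod p) = 0 := by
          rw [Nat.cast_pow, ZMod.natCast_self, zero_pow (by omega)]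
        rw [Nat.cast_add, Nat.cast_add, Nat.cast_mul, Nat.cast_mul, h0]
        ring) ζ (by
        intro W hW
        obtain ⟨⟨m, hm⟩, h2⟩ := hj W (hpS W hW)
        have h3 : 1 ≤ Ideal.absNorm W.asIdeal := by
          rw [Nat.one_le_iff_ne_zero, ne_eq, Ideal.absNorm_eq_zero_iff]
          exact W.ne_bot
        refine ⟨m, by omega, ?_⟩
        rw [h2, hm, Nat.mul_div_cancel_left _ hpk])
    obtain ⟨m, hm, h2⟩ := h
    have h3 : Ideal.absNorm (Ideal.span {γ}) - 1 = p ^ k * m := by omega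
    refine ⟨⟨m, h3⟩, ?_⟩
    rw [h2, h3, Nat.mul_div_cancel_left _ hpk]

end

end Pool.Agent.Helper51.REC
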