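import Pool.Agent.Helper51.REC.Defs

/-!
# Project REC, part 1: symbols, local conditions, the Herbrand quotient

Every statement is a `def ... : Prop` with its complete proof in the docstring. Orders of fractional
expressions: `ordv W x` is the additive valuation, `W.valuation F x < 1` means `ordv W x > 0` or `x = 0`.
-/

set_option autoImplicit false

namespace Pool.Agent.Helper51.REC

open NumberField Module IsDedekindDomain Pool.Agent.Helper51.RP Pool.Agent.Helper42.PP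

/-- **K_BAS** (the symbol at a prime `W ∤ p`).

PROOF. Let `κ = 𝓞_F/W`, `q = N W = |κ|`. The image `ε̄` of `ε` has order `p` in `κˣ`: `∏_{0<i<p} (1 - ε^i) = p`
is a unit at `W`, so `ε̄^i ≠ 1` for `0 < i < p`. So `p ∣ q - 1`. If `u` is a unit at `W` then
`ū^((q-1)/p)` is a root of `X^p - 1`, so it is equal to `ε̄^a` for exactly one `a ∈ ZMod p`. If
`p ∤ ord_W(x)`, `x y^p` is never a unit and `kap = 0` by definition. If `p ∣ ord_W(x)` choose `y ∈ Fˣ` with
`ord_W(y) = -ord_W(x)/p`; for another such `y'` the quotient `y/y'` is a unit at `W` and contributes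
`(y/y')^(q-1) ≡ 1`; so `a` does not depend on `y`, and it is unique: this is the third statement. Additivity:
use `y y'` for `x x'`. `kap(y^p) = 0`: use `y^(-1)`. `kap(x) = 0` iff `ū^((q-1)/p) = 1` (`u = x y^p`) iff `ū` is a
`p`-th power in the cyclic group `κˣ` iff `u z^p ≡ 1` for some unit `z` at `W`, `z ∈ F` (every element of
`κ` is represented by an element of `𝓞_F`); conversely `W.valuation (x y^p - 1) < 1` implies that `x y^p` is a
unit congruent to `1`, so `kap(x) = 0`. Surjectivity: a generator `g` of `κˣ` has `g^((q-1)/p)` of order `p`. -/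
def K_BAS : Prop :=
  ∀ (p : ℕ) [Fact p.Prime] (F : Type) [Field F] [NumberField F] (ε : F), IsPrimitiveRoot ε p →
  ∀ W : HeightOneSpectrum (𝓞 F), W.valuation F (p : F) = 1 →
    p ∣ Ideal.absNorm W.asIdeal - 1 ∧
    (∀ x : Fˣ, ¬ (p : ℤ) ∣ ordv W (x : F) → kap p ε W x = 0) ∧
    (∀ x : Fˣ, (p : ℤ) ∣ ordv W (x : F) → ∀ a, IsKap p ε W x a ↔ a = kap p ε W x) ∧
    (∀ x y : Fˣ, (p : ℤ) ∣ ordv W (x : F) → (p : ℤ) ∣ ordv W (y : F) →
      kap p ε W (x * y) = kap p ε W x + kap p ε W y) ∧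
    (∀ y : Fˣ, kap p ε W (y ^ p) = 0) ∧
    (∀ x : Fˣ, (p : ℤ) ∣ ordv W (x : F) → (kap p ε W x = 0 ↔ LocPow p W (x : F))) ∧
    ∀ a : ZMod p, ∃ x : Fˣ, W.valuation F (x : F) = 1 ∧ kap p ε W x = a

/-- **K_EXT** (the symbol in an extension): `kap_w(x) = f kap_W(x)` if `w` is above `W` and `N w = (N W)^f`.

PROOF. Valuations of elements of `F` at `w` and at `W`: `w.valuation x < 1 ↔ W.valuation x < 1` and
`w.valuation x = 1 ↔ W.valuation x = 1`. Let `q = N W`, `a = kap_W(x)`, `u = x y^p` a unit at `W` with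
`u^((q-1)/p) ≡ ε^a mod W` (`K_BAS`). Then `(q^f - 1)/p = ((q-1)/p) (1 + q + ... + q^(f-1))`, so
`u^((q^f-1)/p) ≡ ε^(a (1 + q + ... + q^(f-1))) = ε^(a f) mod w`, because `q ≡ 1 mod p`; so
`IsKap p ε w x (f a)`; use the uniqueness in `K_BAS` for `w` (`p ∣ ord_w(x)`, as `x y^p` is a unit at `w`). -/
def K_EXT : Prop :=
  ∀ (p : ℕ) [Fact p.Prime] (F E : Type) [Field F] [NumberField F] [Field E] [NumberField E]
    [Algebra F E] (ε : F), IsPrimitiveRoot ε p →
  ∀ (W : HeightOneSpectrum (𝓞 F)) (w : HeightOneSpectrum (𝓞 E)), Above w W →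
    W.valuation F (p : F) = 1 →
  ∀ f : ℕ, Ideal.absNorm w.asIdeal = Ideal.absNorm W.asIdeal ^ f →
  ∀ x : Fˣ, (p : ℤ) ∣ ordv W (x : F) →
    kap p (algebraMap F E ε) w (inc F E x) = f * kap p ε W x

/-- **K_BRK** (the sum `[x, β]`).

PROOF. `{W : ord_W(β) ≠ 0}` is finite for `β ∈ Fˣ`, so the sum over `W` in the definition has finite
support, `ord` is additive: the first statement (`finsum_add_distrib`). The second: every coefficient is
`0` in `ZMod p`. The third: for `W ∉ S` with `p ∤ ord_W(β)` the symbols add up (`K_BAS`, `W ∤ p` because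
`W ∉ S`), for the other `W` both sides are `0`. The fourth: `finsum_eq_sum_of_support_subset`, and the terms
with `W ∈ T` and `p ∣ ord_W(β)` are `0`. -/
def K_BRK : Prop :=
  ∀ (p : ℕ) [Fact p.Prime] (F : Type) [Field F] [NumberField F] (ε : F)
    (S : Set (HeightOneSpectrum (𝓞 F))), IsPrimitiveRoot ε p →
    (∀ W : HeightOneSpectrum (𝓞 F), W.valuation F (p : F) < 1 → W ∈ S) →
    (∀ x β β' : Fˣ, brk p ε S x (β * β') = brk p ε S x β + brk p ε S x β') ∧
    (∀ x β : Fˣ, (∀ W ∉ S, (p : ℤ) ∣ ordv W (β : F)) → brk p ε S x β = 0) ∧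
    (∀ x x' β : Fˣ, (∀ W ∉ S, (p : ℤ) ∣ ordv W (β : F) ∨
        ((p : ℤ) ∣ ordv W (x : F) ∧ (p : ℤ) ∣ ordv W (x' : F))) →
      brk p ε S (x * x') β = brk p ε S x β + brk p ε S x' β) ∧
    (∀ (x β : Fˣ) (T : Finset (HeightOneSpectrum (𝓞 F))), (∀ W ∈ T, W ∉ S) →
      (∀ W ∉ S, ¬ (p : ℤ) ∣ ordv W (β : F) → W ∈ T) →
      brk p ε S x β = ∑ W ∈ T, ((ordv W (β : F) : ℤ) : ZMod p) * kap p ε W x) ∧
    ∀ β : Fˣ, {W : HeightOneSpectrum (𝓞 F) | ¬ (p : ℤ) ∣ ordv W (β : F)}.Finite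

/-- **K_APP** (weak approximation). For a finite set `Z` of primes, elements `g_W ∈ Fˣ` and `N` there is
`β ∈ Fˣ` with `β/g_W ≡ 1` modulo `W` and modulo `p^N` at `W`, for all `W ∈ Z`.

PROOF. Let `D ≥ 1` be an integer with `D g_W ∈ 𝓞_F` for all `W ∈ Z`; let `M` be larger than all the numbers
`N ord_W(p) + ord_W(D g_W) + 1`. By the Chinese remainder theorem there is `b ∈ 𝓞_F` with
`b ≡ D g_W mod W^M` for all `W ∈ Z`; if `b = 0` replace it by a nonzero element of `∏ W^M`. Then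
`b/(D g_W) - 1` has `ord_W ≥ M - ord_W(D g_W) ≥ N ord_W(p) + 1`. Put `β = b/D`. (If `Z` is empty, `β = 1`.) -/
def K_APP : Prop :=
  ∀ (p : ℕ) [Fact p.Prime] (F : Type) [Field F] [NumberField F]
    (Z : Set (HeightOneSpectrum (𝓞 F))), Z.Finite → ∀ (g : HeightOneSpectrum (𝓞 F) → Fˣ) (N : ℕ),
  ∃ β : Fˣ, ∀ W ∈ Z, W.valuation F ((β : F) * ((g W)⁻¹ : Fˣ) - 1) < 1 ∧
    W.valuation F ((β : F) * ((g W)⁻¹ : Fˣ) - 1) ≤ W.valuation F (p : F) ^ N

/-- **K_LOC** (the group `LocS`).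

PROOF. With `y, y'` for `x, x'` use `y y'` for `x x'` (`(1 + a)(1 + b) - 1 = a + b + a b`), `y^(-1)` for
`x^(-1)` (`(1+a)^(-1) - 1 = -a/(1+a)`, `1 + a` is a unit), and `y^(-1)` for `x = y^p`. `x y^p` is a unit at
`W ∈ Z`, so `p ∣ ord_W(x)`. Last statement (from `K_APP`): let `y` be given by `LocS p Z x` and `y_W` by
`LocPow p W x`, `W ∈ Z'`; let `Z''= Z' ∖ Z`, and by `K_APP` choose `t ∈ Fˣ` with `t/y ≡ 1` at `Z` (modulo `W` and
modulo `p³`) and `t/y_W ≡ 1 mod W` at `Z''`. Then `x t^p = x y^p (t/y)^p` etc. -/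
def K_LOC : Prop :=
  ∀ (p : ℕ) [Fact p.Prime] (F : Type) [Field F] [NumberField F]
    (Z : Set (HeightOneSpectrum (𝓞 F))), Z.Finite →
    (∀ x x' : Fˣ, LocS p Z x → LocS p Z x' → LocS p Z (x * x')) ∧
    (∀ x : Fˣ, LocS p Z x → LocS p Z x⁻¹) ∧ (∀ y : Fˣ, LocS p Z (y ^ p)) ∧
    (∀ x : Fˣ, LocS p Z x → ∀ W ∈ Z, (p : ℤ) ∣ ordv W (x : F)) ∧
    ∀ Z' : Set (HeightOneSpectrum (𝓞 F)), Z'.Finite → (∀ W ∈ Z', W.valuation F (p : F) = 1) →
      ∀ x : Fˣ, LocS p Z x → (∀ W ∈ Z', LocPow p W (x : F)) → LocS p (Z ∪ Z') x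

/-- **H_IDX** (indices of images). For endomorphisms `φ, ψ` of an abelian group with finite kernels and
cokernels: `[A : φψA] |ker φ| |ker ψ| = [A : φA] [A : ψA] |ker φψ|`.

PROOF. `φψA ⊆ φA`, `[A : φψA] = [A : φA] [φA : φψA]`, `φA/φψA ≅ A/(ψA · ker φ)`, and
`[A : ψA] = [A : ψA · ker φ] |ker φ/(ker φ ∩ ψA)|`. `ψ` maps `ker(φψ)` onto `ker φ ∩ ψA` with kernel `ker ψ`, so
`|ker φψ| = |ker ψ| |ker φ ∩ ψA|`. -/
def H_IDX : Prop :=
  ∀ (A : Type) [CommGroup A] (φ ψ : A →* A), φ.range.index ≠ 0 → ψ.range.index ≠ 0 →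
    Finite φ.ker → Finite ψ.ker →
    (φ.comp ψ).range.index ≠ 0 ∧ Finite (φ.comp ψ).ker ∧
    (φ.comp ψ).range.index * (Nat.card φ.ker * Nat.card ψ.ker) =
      φ.range.index * ψ.range.index * Nat.card (φ.comp ψ).ker

/-- **H_HER** (Herbrand quotient). Let `M` be a finitely generated abelian group, `σ` an automorphism with
`σ^p = 1`, `rank M^σ = n`, `rank M = p n + p - 1`. Then `|ker N / (1-σ) M| = p |M^σ / N M|`, both finite.

PROOF (from `H_IDX`; additively). `N = ∑_{i<p} σ^i`, `D = 1 - σ`, `B = ker N`, `M^σ = ker D`. For an endomorphism `φ` of a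
finitely generated abelian group `A` with finite kernel and cokernel put `q(φ) = |A/φA|/|ker φ|`; then
`q(φ ψ) = q(φ) q(ψ)` (`H_IDX`); `q` of an automorphism is `1`, `q(p) = p^(rank A)`.
(1) `N M ⊇ N M^σ = p M^σ`, `[N M : N M^σ] = [M : M^σ + B]`, so
`|M^σ/N M| [M : M^σ + B] = [M^σ : p M^σ] = p^n |M^σ[p]|`.
(2) `D M ⊇ D B`, `[D M : D B] = [M : M^σ + B]`, so `|B/D M| [M : M^σ + B] = [B : D B] = q(D|B) |B ∩ M^σ|`, and
`B ∩ M^σ = M^σ[p]` because `N = p` on `M^σ`. Hence `|B/D M| = |M^σ/N M| q(D|B)/p^n`.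
(3) `B` is a module over `ℤ[X]/(1 + X + ... + X^(p-1)) = ℤ[ζ]` (`X` acts as `σ`), and in `ℤ[ζ]`:
`p = ∏_{0<i<p} (1 - ζ^i) = (1-ζ)^(p-1) ∏_i (1 + ζ + ... + ζ^(i-1))`, where the last factors are units
(inverse `∑_{b<j} ζ^(ib)`, `i j ≡ 1 mod p`). So `q(D|B)^(p-1) = q(p|B) = p^(rank B)`,
`rank B = rank M - rank M^σ` (`N M` has finite index in `M^σ`, as it contains `p M^σ`)
`= (p n + p - 1) - n = (p-1)(n+1)`. So `q(D|B) = p^(n+1)` and `|B/D M| = p |M^σ/N M|`. All the indices are finite: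
`[M : M^σ + B]` because `p m = N m + (p m - N m)`, `N m ∈ M^σ`, `p m - N m ∈ B`. -/
def H_HER : Prop :=
  ∀ (p : ℕ) [Fact p.Prime] (M : Type) [CommGroup M] [Group.FG M] (σ : M ≃* M),
    (∀ x, (σ ^ p : MulAut M) x = x) → ∀ n : ℕ, finrank ℤ (Additive (fixG σ)) = n →
    finrank ℤ (Additive M) = p * n + (p - 1) →
    (nmG p σ).range.relIndex (fixG σ) ≠ 0 ∧
    (dfG σ).range.relIndex (nmG p σ).ker = p * (nmG p σ).range.relIndex (fixG σ)

/-- **H_RNK** (rank of the `S`-units).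

PROOF. `x ↦ (ord_w(x))_{w ∈ S}` maps `S.unit F` to `ℤ^S`, with kernel the units `𝓞_Fˣ` (as a subgroup of `Fˣ`;
see `Pool/Agent/Helper88/LE/SUN.lean`), finitely generated of rank `Units.rank F`. The image has finite index:
`w^h = (x)` is principal, `h` the class number. So `S.unit F` is finitely generated and its rank is
`Units.rank F + |S|` (ranks are additive). -/
def H_RNK : Prop :=
  ∀ (F : Type) [Field F] [NumberField F] (S : Set (HeightOneSpectrum (𝓞 F))), S.Finite →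
    Group.FG (S.unit F) ∧ finrank ℤ (Additive (S.unit F)) = Units.rank F + S.ncard

/-- `E = F(b)` is cyclic of degree `p` over `F`, `b^p = β`, `σ b = ε b`. -/
structure Kum (p : ℕ) {F E : Type} [Field F] [Field E] [Algebra F E] (ε : F) (β : Fˣ) (b : E)
    (σ : E ≃ₐ[F] E) : Prop where
  gal : IsGalois F E
  deg : finrank F E = p
  root : b ^ p = algebraMap F E β
  act : σ b = algebraMap F E ε * b

/-- **H_KUM** (Kummer extensions exist).

PROOF. `X^p - β` is irreducible (`X_pow_sub_C_irreducible_of_prime`); `E = AdjoinRoot (X^p - β)` is a number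
field of degree `p` over `F`, Galois because `X^p - β = ∏ (X - ε^i b)` is separable and `E` is its splitting
field (`isGalois_of_isSplittingField_X_pow_sub_C`); `ε b` is another root, so there is `σ` with
`σ b = ε b`. -/
def H_KUM : Prop :=
  ∀ (p : ℕ) [Fact p.Prime] (F : Type) [Field F] [NumberField F] (ε : F), IsPrimitiveRoot ε p →
  ∀ β : Fˣ, ¬ Pw p β →
  ∃ (E : Type) (_ : Field E) (_ : NumberField E) (_ : Algebra F E) (b : E) (σ : E ≃ₐ[F] E),
    Kum p ε β b σ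

/-- **H_SPL** (complete splitting where `β` is locally a `p`-th power).

PROOF. `σ` has order `p` and generates the Galois group. Let `b' = b y`, so `b'^p = β' = β y^p` and
`∏_{i<p} (b' - ε^i) = β' - 1`. Let `e = ord_w(p) ≥ 0`. If `v ∤ p`: `ord_w(β' - 1) > 0` (or `β' = 1`), some
`b' - ε^i` has positive order and only one, because the `ε^i - ε^j`, `i ≠ j`, are units at `w`; put `t = 0`. If
`v ∣ p`: `ord_w(ε^i - ε^j) = e/(p-1) =: t` for `i ≠ j` (`∏_{0<i<p} (1 - ε^i) = p` and the `1 - ε^i` are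
associated); if all `ord_w(b' - ε^i) ≤ t` then `3 e ≤ ord_w(β' - 1) ≤ p t ≤ 2 e`, a contradiction; so some
`b' - ε^i` has order `> t`, and only one. In both cases let `i` be the unique index modulo `p` with
`ord_w(b' - ε^i) > t`. (If `β' = 1` then `b'` is one of the `ε^i`, so `b ∈ F`, impossible as `σ b ≠ b`; not
needed if the order of `0` is `+∞`.) Let `g = σ^j` preserve the valuation of `w`. Then
`g(b' - ε^i) = ε^j b' - ε^i = ε^j (b' - ε^(i-j))` has the same order, so `i - j = i`, `j = 0` modulo `p`. -/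
def H_SPL : Prop :=
  ∀ (p : ℕ) [Fact p.Prime] (F E : Type) [Field F] [NumberField F] [Field E] [NumberField E]
    [Algebra F E] (ε : F) (β : Fˣ) (b : E) (σ : E ≃ₐ[F] E), IsPrimitiveRoot ε p → Kum p ε β b σ →
  ∀ v : HeightOneSpectrum (𝓞 F), (∃ y : Fˣ, v.valuation F ((β : F) * (y : F) ^ p - 1) < 1 ∧
      v.valuation F ((β : F) * (y : F) ^ p - 1) ≤ v.valuation F (p : F) ^ 3) →
  ∀ w : HeightOneSpectrum (𝓞 E), Above w v → FreeP F w

/-- **H_RAM** (ramification outside `p`).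

PROOF. `E/F` is Galois of prime degree `p`, so `e f g = p` (all the primes above `W` have the same `e`, `f`).
(1) Choose `c ∈ Fˣ` with `ord_W(c) = -ord_W(β)/p`, `b' = c b`, `b'^p` is a unit at `W`, so `b'` is a unit at `w`.
If `e ≠ 1` then `e = p`, `f = g = 1`: `σ` preserves the valuation of `w` and acts trivially on
`𝓞_E/w = 𝓞_F/W`, so `σ b' - b' = (ε - 1) b'` has positive order at `w`; but `ε - 1` is a unit at `W ∤ p`. So
`e = 1`.
(2) `e ord_W(β) = p ord_w(b)` gives `p ∣ e`, so `e = p`, `f = g = 1`. Let `u` be a unit at `w`; `σ` preserves `w`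
and acts trivially on the residue field, so `n = ∏ σ^i(u) ≡ u^p mod w`; choose `c ∈ 𝓞_F`, a unit at `W`, with
`c ≡ u mod w` (`f = 1`; `u` is congruent to an element of `𝓞_E`): `n/c^p ≡ 1 mod w`, so modulo `W`. -/
def H_RAM : Prop :=
  ∀ (p : ℕ) [Fact p.Prime] (F E : Type) [Field F] [NumberField F] [Field E] [NumberField E]
    [Algebra F E] (ε : F) (β : Fˣ) (b : E) (σ : E ≃ₐ[F] E), IsPrimitiveRoot ε p → Kum p ε β b σ →
  ∀ W : HeightOneSpectrum (𝓞 F), W.valuation F (p : F) = 1 →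
    ((p : ℤ) ∣ ordv W (β : F) → ∀ w : HeightOneSpectrum (𝓞 E), Above w W →
      ∀ x : F, ordv w (algebraMap F E x) = ordv W x) ∧
    (¬ (p : ℤ) ∣ ordv W (β : F) →
      (∀ w w' : HeightOneSpectrum (𝓞 E), Above w W → Above w' W → w = w') ∧
      ∀ w : HeightOneSpectrum (𝓞 E), Above w W →
        (∀ x : F, ordv w (algebraMap F E x) = p * ordv W x) ∧
        ∀ (u : Eˣ) (n : Fˣ), w.valuation E (u : E) = 1 →
          algebraMap F E n = ∏ i ∈ Finset.range p, (σ ^ i) (u : E) → LocPow p W (n : F))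

/-- **H_CNT** (number of the primes above `S` if all of them have trivial decomposition group).

PROOF. `Gal(E/F)` acts transitively on the primes above `v`, with trivial stabilizers: there are
`[E : F]` of them (tools: `Pool/Agent/Helper2/RL/EF1.lean`, `ef_free`). The sets of primes above different `v`
are disjoint. -/
def H_CNT : Prop :=
  ∀ (F E : Type) [Field F] [NumberField F] [Field E] [NumberField E] [Algebra F E] [IsGalois F E]
    (S : Set (HeightOneSpectrum (𝓞 F))), S.Finite →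
    (∀ v ∈ S, ∀ w : HeightOneSpectrum (𝓞 E), Above w v → FreeP F w) →
    (upS E S).Finite ∧ (upS E S).ncard = finrank F E * S.ncard

/-- **H_UNI** (the `S`-units of `E` as a module).

PROOF (from `H_RNK`, `H_SPL`, `H_CNT`). `S' = upS E S` is stable under `σ`, so `σ` acts on `S'.unit E`; `σ^p = 1`
since the Galois group has order `p`. The elements fixed by `σ` are in `F` (`σ` generates the Galois group:
`σ^i b = ε^i b`), and an element of `F` is an `S'`-unit iff it is an `S`-unit (every `v ∉ S` has a prime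
`w` above it, `w ∉ S'`; valuations of elements of `F` at `w` and `v` are `1` at the same time). So
`fixG σU ≅ S.unit F`, of rank `n = Units.rank F + |S| = [F : ℚ]/2 - 1 + |S|` (`H_RNK`; `F` is totally complex).
`E` is totally complex of degree `p [F : ℚ]`, `|S'| = p |S|` (`H_SPL` with `LocS`, `H_CNT`), so
`rank S'.unit E = p [F : ℚ]/2 - 1 + p |S| = p n + p - 1`. -/
def H_UNI : Prop :=
  ∀ (p : ℕ) [Fact p.Prime] (F E : Type) [Field F] [NumberField F] [Field E] [NumberField E]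
    [Algebra F E] (ε : F) (S : Set (HeightOneSpectrum (𝓞 F))) (β : Fˣ) (b : E) (σ : E ≃ₐ[F] E),
    Sit p F ε S → Kum p ε β b σ → LocS p S β →
  ∃ σU : (upS E S).unit E ≃* (upS E S).unit E,
    (∀ u, (((σU u : (upS E S).unit E) : Eˣ) : E) = σ ((u : Eˣ) : E)) ∧
    (∀ u, (σU ^ p : MulAut ((upS E S).unit E)) u = u) ∧
    Group.FG ((upS E S).unit E) ∧
    (∀ u, u ∈ fixG σU ↔ ∃ x ∈ S.unit F, inc F E x = (u : Eˣ)) ∧
    ∃ n : ℕ, finrank ℤ (Additive (fixG σU)) = n ∧
      finrank ℤ (Additive ((upS E S).unit E)) = p * n + (p - 1)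

/-- **H_H90** (`H¹` of the `S`-units). Let `T` be the set of the `W ∉ S` with `p ∤ ord_W(β)`. The index of
`{u/σ(u)}` in `{u : N u = 1}` (`u` in the `S`-units of `E`) is at most `p^|T|`.

PROOF (from `H_RAM`, Hilbert 90). Every `S'`-unit `u`, `S' = upS E S`, with `∏ σ^i(u) = 1` is `u = z/σ(z)` with
`z ∈ Eˣ` (Hilbert 90: Mathlib `groupCohomology.exists_div_of_norm_eq_one` or similar; or by hand:
`z = ∑_i (∏_{j<i} σ^j u) σ^i(c)` for a suitable `c`, Dedekind). For `W ∈ T` let `w_W` be the unique prime above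
`W` (`H_RAM`); map `u` to `(ord_{w_W}(z) mod p)_{W ∈ T} ∈ (ZMod p)^T` (choose one `z` for each `u`). CLAIM: if
`u, u'` have the same image then `u/u' = t'/σ(t')` with an `S'`-unit `t'`; so `{u : N u = 1}` is covered by at
most `p^|T|` cosets. Let `t = z/z'`; `t/σ(t) = u/u'` is an `S'`-unit, so for `w ∉ S'`,
`ord_w(t) = ord_w(σ t)`: the function `w ↦ ord_w(t)` is constant on the primes above each `W ∉ S` (the Galois
group `⟨σ⟩` is transitive on them). Define `n_W = ord_w(t)` if `W ∉ S ∪ T`, and `n_W = ord_{w_W}(t)/p` (an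
integer) if `W ∈ T` (finite support). By `Sit.prin` there is `y ∈ Fˣ` with `ord_W(y) = n_W` for `W ∉ S`. By
`H_RAM` `ord_w(y) = ord_w(t)` for all `w ∉ S'` (`W ∉ S` is not above `p`), so `t' = t/y` is an `S'`-unit, and
`t'/σ(t') = t/σ(t) = u/u'`. -/
def H_H90 : Prop :=
  ∀ (p : ℕ) [Fact p.Prime] (F E : Type) [Field F] [NumberField F] [Field E] [NumberField E]
    [Algebra F E] (ε : F) (S : Set (HeightOneSpectrum (𝓞 F))) (β : Fˣ) (b : E) (σ : E ≃ₐ[F] E),
    Sit p F ε S → Kum p ε β b σ →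
  ∀ σU : (upS E S).unit E ≃* (upS E S).unit E,
    (∀ u, (((σU u : (upS E S).unit E) : Eˣ) : E) = σ ((u : Eˣ) : E)) →
  ∀ T : Finset (HeightOneSpectrum (𝓞 F)),
    (∀ W, W ∈ T ↔ W ∉ S ∧ ¬ (p : ℤ) ∣ ordv W (β : F)) →
    (dfG σU).range.relIndex (nmG p σU).ker ≤ p ^ T.card

/-- **H_A** (the relation). Let `β` satisfy `LocS`, not a `p`-th power, `T = {W ∉ S : p ∤ ord_W(β)}`. There is a
nonzero `m ∈ (ZMod p)^T` with `∑_{W ∈ T} m_W kap_W(x) = 0` for ALL the `S`-units `x`. (In particular `T` is not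
empty.)

PROOF (from `K_BAS`, `H_KUM`, `H_RAM`, `H_UNI`, `H_HER`, `H_H90`). Let `E, b, σ` be given by `H_KUM`, `σU` by
`H_UNI`. By `H_HER` and `H_H90`, `p [fixG σU : N] ≤ p^|T|`, where `N = (nmG p σU).range`, and the index is not
`0`; so `|T| ≥ 1` and the index is `≤ p^(|T|-1)`. The homomorphism `κ : S.unit F → (ZMod p)^T`,
`x ↦ (kap_W(x))_W` (additive by `K_BAS`: `ord_W(x) = 0` for `W ∉ S`) is trivial on the `x` whose image in
`Eˣ` is in `N`: if `x = ∏ σ^i(u)`, `u` an `S'`-unit, then `u` is a unit at `w_W` (`W ∉ S`), so `LocPow p W x` by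
`H_RAM` (2), `kap_W(x) = 0` by `K_BAS`. By `H_UNI` every `x ∈ S.unit F` corresponds to an element of `fixG σU`, so
the image of `κ` has at most `p^(|T|-1)` elements: it is a proper subspace of `(ZMod p)^T`, and there is a
nonzero linear form `m` which vanishes on it (`Submodule.exists_le_ker_of_lt_top` or similar). -/
def H_A : Prop :=
  ∀ (p : ℕ) [Fact p.Prime] (F : Type) [Field F] [NumberField F] (ε : F)
    (S : Set (HeightOneSpectrum (𝓞 F))), Sit p F ε S →
  ∀ β : Fˣ, LocS p S β → ¬ Pw p β →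
  ∀ T : Finset (HeightOneSpectrum (𝓞 F)),
    (∀ W, W ∈ T ↔ W ∉ S ∧ ¬ (p : ℤ) ∣ ordv W (β : F)) →
  ∃ m : HeightOneSpectrum (𝓞 F) → ZMod p, (∃ W ∈ T, m W ≠ 0) ∧
    ∀ x ∈ S.unit F, ∑ W ∈ T, m W * kap p ε W x = 0

end Pool.Agent.Helper51.REC
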